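import Pool.Agent.R404.MZ.Arith
import Pool.Agent.Y777.AM.G

/-!
# Combinations of multiple zeta values whose number of terms grows as a power of the weight
-/

set_option autoImplicit false

namespace Pool.Agent.R404.MZ

open Finset Filter Topology
open Pool.Agent.Y760.ZG (hr mz)
open Pool.Agent.Y777.AM (ht Hg mz_Hg card_words Z32 mz_nonneg)

lemma rpow_large {e : ℝ} (he : 0 < e) (B : ℝ) : ∃ N0 : ℕ, ∀ N : ℕ, N0 ≤ N → B ≤ (N : ℝ) ^ e := by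
  have h1 : Tendsto (fun N : ℕ => (N : ℝ) ^ e) atTop atTop :=
    (tendsto_rpow_atTop he).comp tendsto_natCast_atTop_atTop
  exact (h1.eventually (eventually_ge_atTop B)).exists_forall_of_atTop

lemma evA (δ γ τ : ℝ) (hδ : 0 < δ) (hγ : γ + δ < 1) (hτ : 0 < τ) :
    ∃ N0 : ℕ, ∀ N : ℕ, N0 ≤ N →
      (21 + 8 * (δ * Real.log N / Real.log 2)) * (N : ℝ) ^ (1 - τ) + (N : ℝ) ^ (δ + γ) ≤ N := by
  set θ : ℝ := max (1 - τ / 2) (δ + γ) with hθ
  have hθ1 : θ < 1 := by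
    rw [hθ]
    exact max_lt (by linarith) (by linarith)
  have hl2 : 0 < Real.log 2 := Real.log_pos (by norm_num)
  set A0 : ℝ := 22 + 8 * (δ / (τ / 2 * Real.log 2)) with hA0
  obtain ⟨N0, hN0⟩ := rpow_large (e := 1 - θ) (by linarith) A0
  refine ⟨max N0 1, fun N hN => ?_⟩
  have hN1 : (1 : ℝ) ≤ N := by exact_mod_cast (le_max_right _ _).trans hN
  have hNp : (0 : ℝ) < N := by linarith
  have h1 := hN0 N ((le_max_left _ _).trans hN)
  have hX : (N : ℝ) ^ (1 - τ) ≤ (N : ℝ) ^ θ := by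
    refine Real.rpow_le_rpow_of_exponent_le hN1 ?_
    have := le_max_left (1 - τ / 2) (δ + γ)
    rw [hθ]
    linarith
  have hY : (N : ℝ) ^ (δ + γ) ≤ (N : ℝ) ^ θ := Real.rpow_le_rpow_of_exponent_le hN1 (le_max_right _ _)
  have hlog : Real.log N ≤ (N : ℝ) ^ (τ / 2) / (τ / 2) := Real.log_le_rpow_div hNp.le (by linarith)
  have h2 : (N : ℝ) ^ (1 - τ) * (δ * Real.log N / Real.log 2) ≤
      (δ / (τ / 2 * Real.log 2)) * (N : ℝ) ^ θ := by
    have h3 : (N : ℝ) ^ (1 - τ) * (N : ℝ) ^ (τ / 2) ≤ (N : ℝ) ^ θ := by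
      rw [← Real.rpow_add hNp]
      refine Real.rpow_le_rpow_of_exponent_le hN1 ?_
      have := le_max_left (1 - τ / 2) (δ + γ)
      rw [hθ]
      linarith
    calc (N : ℝ) ^ (1 - τ) * (δ * Real.log N / Real.log 2)
        ≤ (N : ℝ) ^ (1 - τ) * (δ * ((N : ℝ) ^ (τ / 2) / (τ / 2)) / Real.log 2) := by
          gcongr
      _ = (δ / (τ / 2 * Real.log 2)) * ((N : ℝ) ^ (1 - τ) * (N : ℝ) ^ (τ / 2)) := by field_simp
      _ ≤ _ := mul_le_mul_of_nonneg_left h3 (by positivity)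
  have h4 : (N : ℝ) = (N : ℝ) ^ (1 - θ) * (N : ℝ) ^ θ := by
    rw [← Real.rpow_add hNp]
    simp
  calc (21 + 8 * (δ * Real.log N / Real.log 2)) * (N : ℝ) ^ (1 - τ) + (N : ℝ) ^ (δ + γ)
      = 21 * (N : ℝ) ^ (1 - τ) + 8 * ((N : ℝ) ^ (1 - τ) * (δ * Real.log N / Real.log 2)) +
        (N : ℝ) ^ (δ + γ) := by ring
    _ ≤ 21 * (N : ℝ) ^ θ + 8 * ((δ / (τ / 2 * Real.log 2)) * (N : ℝ) ^ θ) + (N : ℝ) ^ θ := by
        linarith
    _ = A0 * (N : ℝ) ^ θ := by rw [hA0]; ring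
    _ ≤ (N : ℝ) ^ (1 - θ) * (N : ℝ) ^ θ := mul_le_mul_of_nonneg_right h1 (by positivity)
    _ = N := h4.symm

lemma evB (σ A η : ℝ) (hσ1 : σ < 1) (hσ : 0 < σ) (hη : 0 < η) :
    ∃ N0 : ℕ, ∀ N : ℕ, N0 ≤ N → 2 + A * (N : ℝ) ^ σ ≤ η * N := by
  obtain ⟨N0, hN0⟩ := rpow_large (e := 1 - σ) (by linarith) ((2 + A) / η)
  refine ⟨max N0 1, fun N hN => ?_⟩
  have hN1 : (1 : ℝ) ≤ N := by exact_mod_cast (le_max_right _ _).trans hN
  have hNp : (0 : ℝ) < N := by linarith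
  have h1 := hN0 N ((le_max_left _ _).trans hN)
  rw [div_le_iff₀ hη] at h1
  have h2 : (N : ℝ) = (N : ℝ) ^ (1 - σ) * (N : ℝ) ^ σ := by
    rw [← Real.rpow_add hNp]
    simp
  have h3 : (1 : ℝ) ≤ (N : ℝ) ^ σ := Real.one_le_rpow hN1 hσ.le
  calc 2 + A * (N : ℝ) ^ σ ≤ (2 + A) * (N : ℝ) ^ σ := by nlinarith
    _ ≤ ((N : ℝ) ^ (1 - σ) * η) * (N : ℝ) ^ σ := mul_le_mul_of_nonneg_right h1 (by positivity)
    _ = η * ((N : ℝ) ^ (1 - σ) * (N : ℝ) ^ σ) := by ring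
    _ = η * N := by rw [← h2]

/-- the number of terms -/
lemma card_T {ι : Type} [Fintype ι] (N J : ℕ) (a : ι → ℕ) (k : ι → List ℕ)
    (hk : ∀ j, (∀ x ∈ k j, 1 ≤ x) ∧ (k j).sum ≤ J) (ha : ∀ j, N ≤ a j + J ∧ a j ≤ N + J)
    (hinj : Function.Injective fun j => (a j, k j)) : Fintype.card ι ≤ 8 ^ J := by
  classical
  set T1 : Finset ℕ := Finset.Icc (N - J) (N + J) with hT1
  set T2 : Finset (List ℕ) := Finset.univ.image k with hT2
  have h1 : T2.card ≤ 2 ^ J := by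
    refine card_words T2 J fun h hh => ?_
    obtain ⟨j, _, rfl⟩ := Finset.mem_image.1 hh
    exact hk j
  have h2 : T1.card ≤ 2 * J + 1 := by
    rw [hT1, Nat.card_Icc]
    omega
  have h3 : Fintype.card ι ≤ (T1 ×ˢ T2).card := by
    rw [← Finset.card_univ]
    refine Finset.card_le_card_of_injOn (fun j => (a j, k j)) (fun j _ => ?_) (hinj.injOn)
    simp only [Finset.coe_product, Set.mem_prod, Finset.mem_coe]
    refine ⟨?_, Finset.mem_image_of_mem k (Finset.mem_univ j)⟩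
    rw [hT1, Finset.mem_Icc]
    have := ha j
    omega
  rw [Finset.card_product] at h3
  have h4 : ∀ n : ℕ, 2 * n + 1 ≤ 4 ^ n := by
    intro n
    induction n with
    | zero => norm_num
    | succ n ih =>
      rw [pow_succ]
      omega
  calc Fintype.card ι ≤ T1.card * T2.card := h3
    _ ≤ (2 * J + 1) * 2 ^ J := Nat.mul_le_mul h2 h1
    _ ≤ 4 ^ J * 2 ^ J := Nat.mul_le_mul_right _ (h4 J)
    _ = 8 ^ J := by
      rw [← mul_pow]
      norm_num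

/-- **the combination of few terms** -/
theorem asyT (r : ℕ) (δ δ' γ τ : ℝ) (hδ : 0 < δ) (hδδ : δ < δ') (hγ : γ + δ < 1) (hτ : 0 < τ)
    (hτ1 : τ < 1) :
    ∃ N0 : ℕ, ∀ N : ℕ, N0 ≤ N → ∀ J : ℕ, 2 * ((J + 2 : ℕ) : ℝ) ^ (r + 1) ≤ (N : ℝ) ^ δ →
      ((J + 2 : ℕ) : ℝ) ^ (2 * r + 3) ≤ (N : ℝ) ^ (1 - τ) →
      ∀ (ι : Type) [Fintype ι] (a : ι → ℕ) (k : ι → List ℕ) (c : ι → ℤ) (a0 : ℤ),
      (∀ j, (k j).length ≤ r ∧ (∀ x ∈ k j, 1 ≤ x) ∧ (k j).sum ≤ J) →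
      (∀ j, N ≤ a j + J ∧ a j ≤ N + J) → (Function.Injective fun j => (a j, k j)) →
      (a0 ≠ 0 ∨ c ≠ 0) → (∀ j, |(c j : ℝ)| ≤ (2 : ℝ) ^ ((N : ℝ) ^ γ)) →
      2 * ((N : ℝ) ^ (δ' * N))⁻¹ ≤ |(a0 : ℝ) + ∑ j, (c j : ℝ) * mz (a j :: k j)| := by
  obtain ⟨N1, h1⟩ := evA δ γ τ hδ hγ hτ
  obtain ⟨N2, h2⟩ := evB (1 - τ) (3 * δ) (δ' - δ) (by linarith) (by linarith) (by linarith)
  refine ⟨max (max N1 N2) 8, fun N hN J hJ hJ' ι _ a k c a0 hk ha hinj hc hcC => ?_⟩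
  have hN1 := h1 N ((le_max_left _ _).trans ((le_max_left _ _).trans hN))
  have hN2 := h2 N ((le_max_right _ _).trans ((le_max_left _ _).trans hN))
  have hN8 : 8 ≤ N := (le_max_right _ _).trans hN
  have hNr : (8 : ℝ) ≤ N := by exact_mod_cast hN8
  have hNp : (0 : ℝ) < N := by linarith
  have hl2 : 0 < Real.log 2 := Real.log_pos (by norm_num)
  have hlN : 0 ≤ Real.log N := Real.log_nonneg (by linarith)
  set X : ℝ := (N : ℝ) ^ δ with hX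
  have hX1 : 1 ≤ X := Real.one_le_rpow (by linarith) hδ.le
  set P : ℝ := (N : ℝ) ^ (1 - τ) with hP
  set L : ℝ := δ * Real.log N / Real.log 2 with hL
  have hL0 : 0 ≤ L := by positivity
  set K : ℕ := (2 * J + 1) * (J + 2) ^ r + 2 with hK
  have hJ1 : 1 ≤ (J + 2) ^ r := Nat.one_le_iff_ne_zero.2 (by positivity)
  have hK2 : 2 ≤ K := by rw [hK]; omega
  have hK1 : K ≤ 2 * (J + 2) ^ (r + 1) := by
    rw [hK, pow_succ]
    nlinarith
  have hK1r : (K : ℝ) ≤ 2 * ((J + 2 : ℕ) : ℝ) ^ (r + 1) := by exact_mod_cast hK1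
  have hKX : (K : ℝ) ≤ X := hK1r.trans hJ
  have hJ21 : (1 : ℝ) ≤ ((J + 2 : ℕ) : ℝ) := by
    have : 1 ≤ J + 2 := by omega
    exact_mod_cast this
  have hJr : (J : ℝ) + 2 = ((J + 2 : ℕ) : ℝ) := by push_cast; rfl
  set q : ℝ := ((J + 2 : ℕ) : ℝ) with hq
  have hJ0 : (0 : ℝ) ≤ J := Nat.cast_nonneg J
  have hq2 : q ^ (r + 2) ≤ P := (pow_le_pow_right₀ hJ21 (by omega)).trans hJ'
  have hq1 : q ^ (r + 1) ≤ P := (pow_le_pow_right₀ hJ21 (by omega)).trans hJ'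
  have hq0 : q ≤ P := by
    calc q = q ^ 1 := (pow_one _).symm
      _ ≤ q ^ (2 * r + 3) := pow_le_pow_right₀ hJ21 (by omega)
      _ ≤ P := hJ'
  have hK0 : (0 : ℝ) ≤ K := Nat.cast_nonneg K
  have hJK : (J : ℝ) * K ≤ 2 * q ^ (r + 2) := by
    calc (J : ℝ) * K ≤ q * (2 * q ^ (r + 1)) := mul_le_mul (by linarith) hK1r hK0 (by linarith)
      _ = _ := by rw [pow_succ _ (r + 1)]; ring
  have hqK : q * K ≤ 2 * q ^ (r + 2) := by
    calc q * K ≤ q * (2 * q ^ (r + 1)) := mul_le_mul_of_nonneg_left hK1r (by linarith)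
      _ = _ := by rw [pow_succ _ (r + 1)]; ring
  have hJKK : (K : ℝ) * (J * K) ≤ 4 * P := by
    calc (K : ℝ) * (J * K) ≤ (2 * q ^ (r + 1)) * (2 * q ^ (r + 2)) :=
          mul_le_mul hK1r hJK (by positivity) (by positivity)
      _ = 4 * q ^ (2 * r + 3) := by
          rw [show 2 * r + 3 = (r + 1) + (r + 2) by ring, pow_add]
          ring
      _ ≤ 4 * P := by linarith
  have hKγ : (K : ℝ) * (N : ℝ) ^ γ ≤ (N : ℝ) ^ (δ + γ) := by
    rw [Real.rpow_add hNp]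
    exact mul_le_mul_of_nonneg_right hKX (Real.rpow_nonneg hNp.le _)
  have hmain0 : (K : ℝ) * (3 + 3 * J + (N : ℝ) ^ γ + (2 * J + 3 + J * K) * (1 + L)) + J ≤ N := by
    have e1 : (K : ℝ) * 3 ≤ 6 * P := by linarith
    have e2 : (K : ℝ) * (3 * J) ≤ 6 * P := by linarith
    have e3 : (K : ℝ) * (2 * J + 3 + J * K) ≤ 8 * P := by
      have e4 : (K : ℝ) * (2 * J + 3) ≤ 4 * P := by
        calc (K : ℝ) * (2 * J + 3) ≤ 2 * (q * K) := by nlinarith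
          _ ≤ 4 * P := by linarith
      linarith
    have e5 : (K : ℝ) * ((2 * J + 3 + J * K) * (1 + L)) ≤ 8 * P * (1 + L) := by
      rw [← mul_assoc]
      exact mul_le_mul_of_nonneg_right e3 (by linarith)
    have e6 : (21 + 8 * L) * P = 13 * P + 8 * P * (1 + L) := by ring
    linarith
  have hJN : J ≤ N := by
    have h3 : (J : ℝ) ≤ N := by
      have e1 : 0 ≤ (K : ℝ) * (3 + 3 * J + (N : ℝ) ^ γ + (2 * J + 3 + J * K) * (1 + L)) := by
        positivity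
      linarith
    exact_mod_cast h3
  have hcard := card_T N J a k (fun j => ⟨(hk j).2.1, (hk j).2.2⟩) ha hinj
  set Cs : ℝ := 8 ^ J * (2 : ℝ) ^ ((N : ℝ) ^ γ) with hCs
  have hCs1 : 1 ≤ Cs := by
    refine one_le_mul_of_one_le_of_one_le (one_le_pow₀ (by norm_num)) ?_
    exact Real.one_le_rpow (by norm_num) (Real.rpow_nonneg hNp.le _)
  have hCsum : ∑ j, |(c j : ℝ)| ≤ Cs := by
    refine (Finset.sum_le_sum fun j _ => hcC j).trans ?_
    rw [Finset.sum_const, Finset.card_univ, nsmul_eq_mul]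
    refine mul_le_mul_of_nonneg_right ?_ (by positivity)
    exact_mod_cast hcard
  have hKr2 : (2 : ℝ) ≤ K := by exact_mod_cast hK2
  have hM3 : 3 ≤ N - J := by
    have h3 : ((J : ℝ) + 3) ≤ N := by
      have e1 : 0 ≤ (K : ℝ) * (3 * J + (N : ℝ) ^ γ + (2 * J + 3 + J * K) * (1 + L)) := by
        positivity
      nlinarith
    have h4 : J + 3 ≤ N := by exact_mod_cast h3
    omega
  have hcond : 4 * Cs * ((K : ℝ) + 1) ^ (2 * J + 3 + J * K) ≤ 2 ^ ((N - J) / K) := by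
    have hy2 : (2 : ℝ) ^ (1 + L) = 2 * X := by
      rw [Real.rpow_add two_pos, Real.rpow_one, hX]
      congr 1
      rw [Real.rpow_def_of_pos two_pos, Real.rpow_def_of_pos hNp, hL]
      congr 1
      field_simp
    have h3 : ((K : ℝ) + 1) ≤ (2 : ℝ) ^ (1 + L) := by
      rw [hy2]
      linarith
    have h4 : ((K : ℝ) + 1) ^ (2 * J + 3 + J * K) ≤ (2 : ℝ) ^ ((2 * J + 3 + J * K) * (1 + L)) := by
      refine (pow_le_pow_left₀ (by linarith) h3 _).trans ?_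
      rw [← Real.rpow_natCast, ← Real.rpow_mul two_pos.le]
      refine Real.rpow_le_rpow_of_exponent_le one_le_two (le_of_eq ?_)
      push_cast
      ring
    have h5 : 4 * Cs ≤ (2 : ℝ) ^ (2 + 3 * J + (N : ℝ) ^ γ) := by
      rw [hCs, Real.rpow_add two_pos, Real.rpow_add two_pos]
      have h6 : (8 : ℝ) ^ J = 2 ^ (3 * (J : ℝ)) := by
        rw [Real.rpow_mul two_pos.le, Real.rpow_natCast]
        norm_num
      have h8 : (2 : ℝ) ^ (2 : ℝ) = 4 := by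
        norm_num
      rw [h8, mul_assoc, h6]
    have h6 : (2 : ℝ) ^ (2 + 3 * J + (N : ℝ) ^ γ + (2 * J + 3 + J * K) * (1 + L)) ≤
        2 ^ ((N - J) / K) := by
      rw [← Real.rpow_natCast 2 ((N - J) / K)]
      refine Real.rpow_le_rpow_of_exponent_le one_le_two ?_
      have h7 : ((N - J : ℕ) : ℝ) < (K : ℝ) * ((((N - J) / K : ℕ) : ℝ) + 1) := by
        have h8 := Nat.lt_mul_div_succ (N - J) (by omega : 0 < K)
        exact_mod_cast h8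
      rw [Nat.cast_sub hJN] at h7
      have h10 : (K : ℝ) * (3 + 3 * J + (N : ℝ) ^ γ + (2 * J + 3 + J * K) * (1 + L)) ≤
          (K : ℝ) * ((((N - J) / K : ℕ) : ℝ) + 1) := by linarith
      have h12 := le_of_mul_le_mul_left h10 (by linarith)
      linarith
    refine le_trans ?_ h6
    calc 4 * Cs * ((K : ℝ) + 1) ^ (2 * J + 3 + J * K)
        ≤ (2 : ℝ) ^ (2 + 3 * J + (N : ℝ) ^ γ) * (2 : ℝ) ^ ((2 * J + 3 + J * K) * (1 + L)) := by
          refine mul_le_mul h5 h4 (by positivity) (by positivity)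
      _ = _ := by rw [← Real.rpow_add two_pos]
  have hmain := explicit (N - J) (2 * J) J r K a k c a0 hk (fun j => by
    have := ha j
    omega) hinj hc (by rw [hK]) hM3 Cs hCs1 hCsum hcond
  refine le_trans ?_ hmain
  have hexp : N - J + 2 * J + J * K = N + J + J * K := by omega
  rw [hexp]
  have h3 : (K : ℝ) ^ (N + J + J * K) ≤ (N : ℝ) ^ (δ * (N + 3 * P)) := by
    calc (K : ℝ) ^ (N + J + J * K) ≤ X ^ (N + J + J * K) := pow_le_pow_left₀ (by linarith) hKX _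
      _ = X ^ (((N + J + J * K : ℕ) : ℝ)) := (Real.rpow_natCast _ _).symm
      _ ≤ X ^ ((N : ℝ) + 3 * P) := by
          refine Real.rpow_le_rpow_of_exponent_le hX1 ?_
          push_cast
          linarith
      _ = _ := by rw [hX, ← Real.rpow_mul hNp.le]
  have h4 : 4 * (K : ℝ) ^ (N + J + J * K) ≤ (N : ℝ) ^ (δ' * N) := by
    calc 4 * (K : ℝ) ^ (N + J + J * K) ≤ (N : ℝ) ^ (2 : ℝ) * (N : ℝ) ^ (δ * (N + 3 * P)) := by
          refine mul_le_mul ?_ h3 (by positivity) (by positivity)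
          rw [Real.rpow_two]
          nlinarith
      _ = (N : ℝ) ^ (2 + δ * (N + 3 * P)) := by rw [← Real.rpow_add hNp]
      _ ≤ _ := by
          refine Real.rpow_le_rpow_of_exponent_le (by linarith) ?_
          nlinarith
  have h5 : 0 < (K : ℝ) ^ (N + J + J * K) := by positivity
  calc 2 * ((N : ℝ) ^ (δ' * N))⁻¹ ≤ 2 * (4 * (K : ℝ) ^ (N + J + J * K))⁻¹ := by
        refine mul_le_mul_of_nonneg_left ?_ two_pos.le
        exact inv_anti₀ (by positivity) h4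
    _ = (2 * (K : ℝ) ^ (N + J + J * K))⁻¹ := by
        rw [mul_inv, mul_inv]
        ring

/-- **the combination of the small values** -/
theorem asyH (κ C δ' ε : ℝ) (hδ' : 0 < δ') (hε : δ' < ε) :
    ∃ N0 : ℕ, ∀ N : ℕ, N0 ≤ N → ∀ H : Finset (List ℕ),
      (∀ h ∈ H, (∀ m ∈ h, 1 ≤ m) ∧ (∀ x ∈ h.head?, 2 ≤ x) ∧ (h.sum : ℝ) ≤ κ * N ∧
        ε * N ≤ ht h) → ∀ b : List ℕ → ℝ, (∀ h ∈ H, |b h| ≤ C ^ N) →
      |∑ h ∈ H, b h * mz h| ≤ ((N : ℝ) ^ (δ' * N))⁻¹ := by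
  set Q : ℕ := ⌈κ⌉₊ with hQ
  set Z : ℝ := max 1 Z32 with hZ
  set C' : ℝ := max 1 |C| with hC'
  have hC1 : 1 ≤ C' := le_max_left _ _
  have hZ1 : 1 ≤ Z := le_max_left _ _
  have hZ0 : 0 ≤ Z32 := tsum_nonneg fun k => by positivity
  set B : ℝ := 2 ^ Q * C' * 4 ^ Q * Real.exp 1 * Z * 2 with hB
  obtain ⟨N0, hN0⟩ := rpow_large (e := ε - δ') (by linarith) B
  refine ⟨max N0 2, fun N hN H hH b hb => ?_⟩
  have hN2 : 2 ≤ N := (le_max_right _ _).trans hN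
  have hNr : (2 : ℝ) ≤ N := by exact_mod_cast hN2
  have hNp : (0 : ℝ) < N := by linarith
  have h1 := hN0 N ((le_max_left _ _).trans hN)
  have hsumQ : ∀ h ∈ H, h.sum ≤ Q * N := by
    intro h hh
    have h2 := (hH h hh).2.2.1
    have h3 : κ * N ≤ Q * N := mul_le_mul_of_nonneg_right (Nat.le_ceil κ) hNp.le
    exact_mod_cast h2.trans h3
  have hHg : ∀ h ∈ H, Hg N ε Q h := by
    intro h hh
    obtain ⟨e1, e2, e3, e4⟩ := hH h hh
    refine ⟨?_, e1, e2, ?_, e4⟩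
    · rintro rfl
      have h5 : ht [] = 0 := rfl
      rw [h5] at e4
      have h6 : 0 < ε * N := mul_pos (by linarith) hNp
      rw [Nat.cast_zero] at e4
      linarith
    · exact (List.length_le_sum_of_one_le h e1).trans (hsumQ h hh)
  have hcard : (H.card : ℝ) ≤ (2 ^ Q) ^ N := by
    have h2 := card_words H (Q * N) fun h hh => ⟨(hH h hh).1, hsumQ h hh⟩
    calc (H.card : ℝ) ≤ ((2 ^ (Q * N) : ℕ) : ℝ) := by exact_mod_cast h2
      _ = _ := by rw [← pow_mul]; push_cast; rfl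
  set n : ℕ := ⌈ε * N⌉₊ - 1 with hn
  have hn0 : (0 : ℝ) < (n.factorial : ℝ) := by exact_mod_cast Nat.factorial_pos _
  have hbb : ∀ h ∈ H, |b h| ≤ C' ^ N := by
    intro h hh
    refine (hb h hh).trans ((le_abs_self _).trans ?_)
    rw [abs_pow]
    exact pow_le_pow_left₀ (abs_nonneg _) (le_max_right _ _) _
  have h2 : |∑ h ∈ H, b h * mz h| ≤ (2 ^ Q) ^ N * (C' ^ N * ((4 ^ Q) ^ N * Z32 / n.factorial)) := by
    calc |∑ h ∈ H, b h * mz h| ≤ ∑ h ∈ H, |b h * mz h| := Finset.abs_sum_le_sum_abs _ _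
      _ ≤ ∑ h ∈ H, C' ^ N * ((4 ^ Q) ^ N * Z32 / n.factorial) := by
          refine Finset.sum_le_sum fun h hh => ?_
          rw [abs_mul, abs_of_nonneg (mz_nonneg h)]
          exact mul_le_mul (hbb h hh) (mz_Hg (hHg h hh)) (mz_nonneg _) (by positivity)
      _ = H.card * (C' ^ N * ((4 ^ Q) ^ N * Z32 / n.factorial)) := by
          rw [Finset.sum_const, nsmul_eq_mul]
      _ ≤ _ := mul_le_mul_of_nonneg_right hcard (by positivity)
  have h3 : (N : ℝ) ^ (ε * N) ≤ N * Real.exp 1 ^ N * n.factorial := by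
    have h4 := Real.pow_div_factorial_le_exp (N : ℝ) hNp.le n
    rw [div_le_iff₀ hn0] at h4
    have h5 : Real.exp (N : ℝ) = Real.exp 1 ^ N := by
      rw [← Real.exp_nat_mul, mul_one]
    have h6 : ε * N - 1 ≤ (n : ℝ) := by
      have h7 := Nat.le_ceil (ε * N)
      have h8 : ((⌈ε * N⌉₊ : ℕ) : ℝ) ≤ (n : ℝ) + 1 := by
        have : ⌈ε * N⌉₊ ≤ n + 1 := by omega
        exact_mod_cast this
      linarith
    calc (N : ℝ) ^ (ε * N) = N * (N : ℝ) ^ (ε * N - 1) := by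
          rw [Real.rpow_sub hNp, Real.rpow_one]
          field_simp
      _ ≤ N * (N : ℝ) ^ (n : ℝ) := by
          refine mul_le_mul_of_nonneg_left ?_ hNp.le
          exact Real.rpow_le_rpow_of_exponent_le (by linarith) h6
      _ = N * (N : ℝ) ^ n := by rw [Real.rpow_natCast]
      _ ≤ N * (Real.exp (N : ℝ) * n.factorial) := mul_le_mul_of_nonneg_left h4 hNp.le
      _ = _ := by rw [h5]; ring
  have hP : 0 < (N : ℝ) ^ (δ' * N) := Real.rpow_pos_of_pos hNp _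
  have h4 : (2 ^ Q) ^ N * (C' ^ N * ((4 ^ Q) ^ N * Z32)) * (N * Real.exp 1 ^ N) *
      (N : ℝ) ^ (δ' * N) ≤ (N : ℝ) ^ (ε * N) := by
    have h5 : B ^ N ≤ (N : ℝ) ^ ((ε - δ') * N) := by
      rw [Real.rpow_mul hNp.le, Real.rpow_natCast]
      exact pow_le_pow_left₀ (by positivity) h1 _
    have h6 : (N : ℝ) ^ (ε * N) = (N : ℝ) ^ ((ε - δ') * N) * (N : ℝ) ^ (δ' * N) := by
      rw [← Real.rpow_add hNp]
      congr 1
      ring
    rw [h6]
    refine mul_le_mul_of_nonneg_right (le_trans ?_ h5) hP.le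
    have h7 : Z32 ≤ Z ^ N := by
      calc Z32 ≤ Z := le_max_right _ _
        _ = Z ^ 1 := (pow_one _).symm
        _ ≤ Z ^ N := pow_le_pow_right₀ hZ1 (by omega)
    have h8 : (N : ℝ) ≤ 2 ^ N := by exact_mod_cast (Nat.lt_two_pow_self (n := N)).le
    calc (2 ^ Q) ^ N * (C' ^ N * ((4 ^ Q) ^ N * Z32)) * (N * Real.exp 1 ^ N)
        ≤ (2 ^ Q) ^ N * (C' ^ N * ((4 ^ Q) ^ N * Z ^ N)) * (2 ^ N * Real.exp 1 ^ N) := by
          gcongr
      _ = B ^ N := by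
          rw [hB]
          simp only [mul_pow]
          ring
  have h9 : 0 < (N : ℝ) * Real.exp 1 ^ N := by positivity
  have h10 : (2 ^ Q) ^ N * (C' ^ N * ((4 ^ Q) ^ N * Z32)) * (N : ℝ) ^ (δ' * N) ≤ n.factorial := by
    refine le_of_mul_le_mul_left ?_ h9
    calc (N : ℝ) * Real.exp 1 ^ N * ((2 ^ Q) ^ N * (C' ^ N * ((4 ^ Q) ^ N * Z32)) *
          (N : ℝ) ^ (δ' * N))
        = (2 ^ Q) ^ N * (C' ^ N * ((4 ^ Q) ^ N * Z32)) * (N * Real.exp 1 ^ N) *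
          (N : ℝ) ^ (δ' * N) := by ring
      _ ≤ _ := h4.trans h3
  refine h2.trans ?_
  have h11 : (2 ^ Q) ^ N * (C' ^ N * ((4 ^ Q) ^ N * Z32 / n.factorial)) =
      (2 ^ Q) ^ N * (C' ^ N * ((4 ^ Q) ^ N * Z32)) / n.factorial := by ring
  rw [h11, div_le_iff₀ hn0, ← div_eq_inv_mul, le_div_iff₀ hP]
  exact h10

/-- **the main theorem** -/
theorem asy (r : ℕ) (κ C δ γ τ ε : ℝ) (hδ : 0 < δ) (hδε : δ < ε) (hγ : γ + δ < 1) (hτ : 0 < τ)
    (hτ1 : τ < 1) :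
    ∃ N0 : ℕ, ∀ N : ℕ, N0 ≤ N → ∀ J : ℕ, 2 * ((J + 2 : ℕ) : ℝ) ^ (r + 1) ≤ (N : ℝ) ^ δ →
      ((J + 2 : ℕ) : ℝ) ^ (2 * r + 3) ≤ (N : ℝ) ^ (1 - τ) →
      ∀ (ι : Type) [Fintype ι] (a : ι → ℕ) (k : ι → List ℕ) (c : ι → ℤ) (a0 : ℤ),
      (∀ j, (k j).length ≤ r ∧ (∀ x ∈ k j, 1 ≤ x) ∧ (k j).sum ≤ J) →
      (∀ j, N ≤ a j + J ∧ a j ≤ N + J) → (Function.Injective fun j => (a j, k j)) →
      (a0 ≠ 0 ∨ c ≠ 0) → (∀ j, |(c j : ℝ)| ≤ (2 : ℝ) ^ ((N : ℝ) ^ γ)) →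
      ∀ H : Finset (List ℕ), (∀ h ∈ H, (∀ m ∈ h, 1 ≤ m) ∧ (∀ x ∈ h.head?, 2 ≤ x) ∧
        (h.sum : ℝ) ≤ κ * N ∧ ε * N ≤ ht h) → ∀ b : List ℕ → ℝ, (∀ h ∈ H, |b h| ≤ C ^ N) →
      ((N : ℝ) ^ (ε * N))⁻¹ <
        |(a0 : ℝ) + ∑ j, (c j : ℝ) * mz (a j :: k j) - ∑ h ∈ H, b h * mz h| := by
  obtain ⟨N1, h1⟩ := asyT r δ ((δ + ε) / 2) γ τ hδ (by linarith) hγ hτ hτ1
  obtain ⟨N2, h2⟩ := asyH κ C ((δ + ε) / 2) ε (by linarith) (by linarith)
  refine ⟨max (max N1 N2) 2, fun N hN J hJ hJ' ι _ a k c a0 hk ha hinj hc hcC H hH b hb => ?_⟩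
  have h3 := h1 N ((le_max_left _ _).trans ((le_max_left _ _).trans hN)) J hJ hJ' ι a k c a0 hk ha
    hinj hc hcC
  have h4 := h2 N ((le_max_right _ _).trans ((le_max_left _ _).trans hN)) H hH b hb
  have hN2 : (2 : ℝ) ≤ N := by exact_mod_cast (le_max_right _ _).trans hN
  have hP : 0 < (N : ℝ) ^ ((δ + ε) / 2 * N) := Real.rpow_pos_of_pos (by linarith) _
  have h5 : ((N : ℝ) ^ (ε * N))⁻¹ < ((N : ℝ) ^ ((δ + ε) / 2 * N))⁻¹ := by
    refine inv_strictAnti₀ hP ?_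
    refine Real.rpow_lt_rpow_of_exponent_lt (by linarith) ?_
    nlinarith
  have h6 := abs_sub_abs_le_abs_sub ((a0 : ℝ) + ∑ j, (c j : ℝ) * mz (a j :: k j))
    (∑ h ∈ H, b h * mz h)
  linarith

/-- the number of words -/
lemma count_words (r J : ℕ) : ∃ L : Finset (List ℕ), (J / r) ^ r ≤ L.card ∧
    ∀ k ∈ L, k.length ≤ r ∧ (∀ x ∈ k, 1 ≤ x) ∧ k.sum ≤ J := by
  classical
  set f : (Fin r → Fin (J / r)) → List ℕ := fun g => List.ofFn fun i => (g i : ℕ) + 1 with hf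
  have hinj : Function.Injective f := by
    intro g g' h
    have h1 := List.ofFn_injective h
    funext i
    have h2 := congrFun h1 i
    apply Fin.ext
    simpa using h2
  refine ⟨Finset.univ.image f, ?_, fun k hk => ?_⟩
  · rw [Finset.card_image_of_injective _ hinj]
    simp
  · obtain ⟨g, _, rfl⟩ := Finset.mem_image.1 hk
    refine ⟨by simp [hf], ?_, ?_⟩
    · intro x hx
      obtain ⟨i, rfl⟩ := (List.mem_ofFn' _ _).1 hx
      exact Nat.succ_le_succ (Nat.zero_le _)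
    · rw [hf]
      simp only [List.sum_ofFn]
      calc ∑ i, ((g i : ℕ) + 1) ≤ ∑ _i : Fin r, J / r := Finset.sum_le_sum fun i _ => by
            have := (g i).2
            omega
        _ = r * (J / r) := by simp
        _ ≤ J := Nat.mul_div_le J r

/-- the number of terms is a power of the weight -/
lemma count_large (η δ : ℝ) (hη : 0 < η) (hηδ : η < δ) (hδ1 : δ ≤ 1) :
    ∃ r : ℕ, ∃ N0 : ℕ, ∀ N : ℕ, N0 ≤ N →
    ∃ J : ℕ, 2 * J ≤ N ∧ ((J + 2 : ℕ) : ℝ) ^ (r + 2) ≤ (N : ℝ) ^ δ ∧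
      (N : ℝ) ^ η ≤ ((J / r : ℕ) : ℝ) ^ r := by
  set r : ℕ := ⌈2 * η / (δ - η)⌉₊ + 1 with hr
  have hr1 : (1 : ℝ) ≤ r := by
    have : 1 ≤ r := by omega
    exact_mod_cast this
  have hrη : 2 * η < r * (δ - η) := by
    rw [← div_lt_iff₀ (by linarith)]
    have h1 := Nat.le_ceil (2 * η / (δ - η))
    rw [hr]
    push_cast
    linarith
  set e : ℝ := δ / (r + 2) with he
  have he0 : 0 < e := by
    rw [he]
    exact div_pos (by linarith) (by linarith)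
  have hee : e * (r + 2) = δ := by
    rw [he]
    field_simp
  have her : 0 < e * r - η := by
    have h1 : 0 < (e * r - η) * (r + 2) := by
      have h2 : (e * r - η) * (r + 2) = r * (δ - η) - 2 * η := by
        rw [← hee]
        ring
      rw [h2]
      linarith
    exact pos_of_mul_pos_left h1 (by linarith)
  obtain ⟨N1, h1⟩ := rpow_large her ((2 * (r : ℝ)) ^ r)
  obtain ⟨N2, h2⟩ := rpow_large he0 (2 * (r + 3))
  refine ⟨r, max (max N1 N2) 4, fun N hN => ?_⟩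
  have h1N := h1 N ((le_max_left _ _).trans ((le_max_left _ _).trans hN))
  have h2N := h2 N ((le_max_right _ _).trans ((le_max_left _ _).trans hN))
  have hN4 : (4 : ℝ) ≤ N := by exact_mod_cast (le_max_right _ _).trans hN
  have hNp : (0 : ℝ) < N := by linarith
  set Y : ℝ := (N : ℝ) ^ e with hY
  have hY0 : 0 ≤ Y := Real.rpow_nonneg hNp.le _
  have hfl : ((⌊Y⌋₊ : ℕ) : ℝ) ≤ Y := Nat.floor_le hY0
  have hfl2 : Y < (⌊Y⌋₊ : ℝ) + 1 := Nat.lt_floor_add_one Y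
  have h2f : 2 ≤ ⌊Y⌋₊ := by
    rw [Nat.le_floor_iff hY0]
    push_cast
    linarith
  refine ⟨⌊Y⌋₊ - 2, ?_, ?_, ?_⟩
  · have h3 : Y ≤ (N : ℝ) ^ (1 / 2 : ℝ) := by
      refine Real.rpow_le_rpow_of_exponent_le (by linarith) ?_
      rw [he, div_le_iff₀ (by linarith)]
      linarith
    have h4 : (N : ℝ) ^ (1 / 2 : ℝ) * (N : ℝ) ^ (1 / 2 : ℝ) = N := by
      rw [← Real.rpow_add hNp]
      norm_num
    have h5 : (2 : ℝ) ≤ (N : ℝ) ^ (1 / 2 : ℝ) := by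
      have h6 : (0 : ℝ) ≤ (N : ℝ) ^ (1 / 2 : ℝ) := Real.rpow_nonneg hNp.le _
      nlinarith
    have h6 : (2 : ℝ) * (⌊Y⌋₊ : ℕ) ≤ N := by nlinarith
    have h7 : 2 * ⌊Y⌋₊ ≤ N := by exact_mod_cast h6
    omega
  · rw [Nat.sub_add_cancel h2f]
    calc ((⌊Y⌋₊ : ℕ) : ℝ) ^ (r + 2) ≤ Y ^ (r + 2) := pow_le_pow_left₀ (Nat.cast_nonneg _) hfl _
      _ = (N : ℝ) ^ δ := by
        rw [hY, ← Real.rpow_natCast, ← Real.rpow_mul hNp.le]
        congr 1
        push_cast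
        exact hee
  · have h3 : Y / (2 * r) ≤ (((⌊Y⌋₊ - 2) / r : ℕ) : ℝ) := by
      have h4 : ⌊Y⌋₊ - 2 < r * ((⌊Y⌋₊ - 2) / r + 1) := Nat.lt_mul_div_succ _ (by omega)
      have h5 : (⌊Y⌋₊ : ℝ) ≤ r * ((((⌊Y⌋₊ - 2) / r : ℕ) : ℝ) + 1) + 2 := by
        have h6 : ⌊Y⌋₊ ≤ r * ((⌊Y⌋₊ - 2) / r + 1) + 2 := by omega
        exact_mod_cast h6
      rw [div_le_iff₀ (by linarith)]
      nlinarith
    have h4 : (Y / (2 * r)) ^ r ≤ (((⌊Y⌋₊ - 2) / r : ℕ) : ℝ) ^ r :=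
      pow_le_pow_left₀ (by positivity) h3 _
    refine le_trans ?_ h4
    rw [div_pow, le_div_iff₀ (by positivity)]
    have h5 : Y ^ r = (N : ℝ) ^ (e * r - η) * (N : ℝ) ^ η := by
      rw [hY, ← Real.rpow_natCast, ← Real.rpow_mul hNp.le, ← Real.rpow_add hNp]
      congr 1
      ring
    rw [h5, mul_comm]
    exact mul_le_mul_of_nonneg_right h1N (Real.rpow_nonneg hNp.le _)

end Pool.Agent.R404.MZ
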