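import Pool.Agent.R404.MZ.Box
import Pool.Agent.Y777.AM.A

/-!
# Lower bounds for integral combinations of multiple zeta values with many terms
-/

set_option autoImplicit false

namespace Pool.Agent.R404.MZ

open Finset
open Pool.Agent.Y760.ZG (hr hr_nil hr_cons mz tl tail_bd tail_sum tail_split ze)

/-- truncated sums are integral up to a power of the factorial -/
lemma hr_int (F : ℕ) (l : List ℕ) : ∀ m : ℕ, (∀ i, 1 ≤ i → i < m → i ∣ F) →
    ∃ z : ℤ, (F : ℝ) ^ l.sum * hr l m = z := by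
  induction l with
  | nil => intro m _; exact ⟨1, by rw [hr_nil]; simp⟩
  | cons a l ih =>
    intro m hm
    have h1 : ∀ j ∈ Finset.Ico 1 m, ∃ z : ℤ,
        (F : ℝ) ^ (a + l.sum) * (hr l j / (j : ℝ) ^ a) = z := by
      intro j hj
      rw [Finset.mem_Ico] at hj
      obtain ⟨z, hz⟩ := ih j fun i h1 h2 => hm i h1 (by omega)
      obtain ⟨q, hq⟩ := hm j hj.1 hj.2
      refine ⟨(q : ℤ) ^ a * z, ?_⟩
      have hj0 : (j : ℝ) ≠ 0 := by
        have : 0 < j := hj.1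
        exact_mod_cast this.ne'
      have h3 : (F : ℝ) ^ a = (j : ℝ) ^ a * (q : ℝ) ^ a := by
        rw [hq]
        push_cast
        rw [mul_pow]
      rw [pow_add]
      push_cast
      rw [← hz]
      rw [h3]
      field_simp
    choose! z hz using h1
    refine ⟨∑ j ∈ Finset.Ico 1 m, z j, ?_⟩
    rw [hr_cons, List.sum_cons, Finset.mul_sum]
    push_cast
    exact Finset.sum_congr rfl hz

lemma ze2_le : ze 2 ≤ 2 := by
  have h1 := hasSum_zeta_two
  have h2 := (hasSum_nat_add_iff' 1).2 h1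
  have h3 : ze 2 = Real.pi ^ 2 / 6 := by
    have h4 : (fun m : ℕ => 1 / ((m : ℝ) + 1) ^ 2) = fun n : ℕ => 1 / ((n + 1 : ℕ) : ℝ) ^ 2 := by
      funext n
      push_cast
      rfl
    unfold ze
    rw [h4, h2.tsum_eq]
    simp
  rw [h3]
  have h5 := Real.pi_lt_d2
  have h6 := Real.pi_pos
  nlinarith

lemma two_pow_le {m K M : ℕ} (hm : 1 ≤ m) (hmK : m ≤ K) :
    (2 : ℝ) ^ (M / K) * (m : ℝ) ^ M ≤ ((m + 1 : ℕ) : ℝ) ^ M := by
  have hK : 0 < K := by omega
  have hm0 : (0 : ℝ) < m := by exact_mod_cast hm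
  have h1 : (2 : ℝ) * (m : ℝ) ^ K ≤ ((m + 1 : ℕ) : ℝ) ^ K := by
    have h2 := one_add_mul_le_pow (a := 1 / (m : ℝ)) (by
      have : 0 < 1 / (m : ℝ) := by positivity
      linarith) K
    have h3 : (2 : ℝ) ≤ 1 + K * (1 / (m : ℝ)) := by
      have h4 : (m : ℝ) ≤ K := by exact_mod_cast hmK
      have h5 : 1 ≤ (K : ℝ) * (1 / (m : ℝ)) := by
        rw [mul_one_div, one_le_div hm0]
        exact h4
      linarith
    have h6 : ((m + 1 : ℕ) : ℝ) ^ K = (1 + 1 / (m : ℝ)) ^ K * (m : ℝ) ^ K := by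
      rw [← mul_pow]
      congr 1
      push_cast
      field_simp
    rw [h6]
    exact mul_le_mul_of_nonneg_right (h3.trans h2) (by positivity)
  have h7 : M = K * (M / K) + M % K := (Nat.div_add_mod M K).symm
  calc (2 : ℝ) ^ (M / K) * (m : ℝ) ^ M
      = (2 * (m : ℝ) ^ K) ^ (M / K) * (m : ℝ) ^ (M % K) := by
        rw [mul_pow, ← pow_mul, mul_assoc, ← pow_add, ← h7]
    _ ≤ (((m + 1 : ℕ) : ℝ) ^ K) ^ (M / K) * ((m + 1 : ℕ) : ℝ) ^ (M % K) := by
        refine mul_le_mul (pow_le_pow_left₀ (by positivity) h1 _) ?_ (by positivity) (by positivity)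
        refine pow_le_pow_left₀ hm0.le ?_ _
        push_cast
        linarith
    _ = ((m + 1 : ℕ) : ℝ) ^ M := by
        rw [← pow_mul, ← pow_add, ← h7]

section

variable {ι : Type} [Fintype ι]

/-- the combination as a function of the largest variable -/
noncomputable def Gf (a : ι → ℕ) (k : ι → List ℕ) (c : ι → ℤ) (n : ℕ) : ℝ :=
  ∑ j, (c j : ℝ) * (hr (k j) n / (n : ℝ) ^ a j)

lemma Gf_cmb (a : ι → ℕ) (k : ι → List ℕ) (c : ι → ℤ) (n : ℕ) :
    Gf a k c n = cmb (fun j => (a j : ℤ)) k (fun j => (c j : ℝ)) n := by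
  unfold Gf cmb co
  refine Finset.sum_congr rfl fun j _ => ?_
  rw [zpow_neg, zpow_natCast]
  ring

lemma Gf_bd {a : ι → ℕ} {k : ι → List ℕ} {c : ι → ℤ} {M : ℕ} {Cs : ℝ}
    (hk : ∀ j, ∀ x ∈ k j, 1 ≤ x) (ha : ∀ j, M ≤ a j) (hC : ∑ j, |(c j : ℝ)| ≤ Cs) (m : ℕ)
    (hm : 1 ≤ m) : |Gf a k c m| ≤ Cs * (m : ℝ) ^ 1 * ((m : ℝ) ^ M)⁻¹ := by
  have hm1 : (1 : ℝ) ≤ m := by exact_mod_cast hm
  unfold Gf
  refine (Finset.abs_sum_le_sum_abs _ _).trans ?_
  calc ∑ j, |(c j : ℝ) * (hr (k j) m / (m : ℝ) ^ a j)|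
      ≤ ∑ j, |(c j : ℝ)| * ((m : ℝ) ^ 1 * ((m : ℝ) ^ M)⁻¹) := by
        refine Finset.sum_le_sum fun j _ => ?_
        rw [abs_mul]
        refine mul_le_mul_of_nonneg_left ?_ (abs_nonneg _)
        rw [abs_of_nonneg (div_nonneg (hr_nn _ _) (by positivity)), pow_one, ← div_eq_mul_inv]
        refine div_le_div₀ (by positivity) (Pool.Agent.Y777.AM.hr_le_self (k j) (hk j) m hm)
          (by positivity) (pow_le_pow_right₀ hm1 (ha j))
    _ = (∑ j, |(c j : ℝ)|) * ((m : ℝ) ^ 1 * ((m : ℝ) ^ M)⁻¹) := by rw [Finset.sum_mul]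
    _ ≤ Cs * ((m : ℝ) ^ 1 * ((m : ℝ) ^ M)⁻¹) := mul_le_mul_of_nonneg_right hC (by positivity)
    _ = _ := by ring

lemma Gf_int {a : ι → ℕ} {k : ι → List ℕ} {c : ι → ℤ} {A J F m : ℕ} (hm : 1 ≤ m)
    (hF : ∀ i, 1 ≤ i → i < m → i ∣ F) (hk : ∀ j, (k j).sum ≤ J) (ha : ∀ j, a j ≤ A) :
    ∃ z : ℤ, (m : ℝ) ^ A * (F : ℝ) ^ J * Gf a k c m = z := by
  have hm0 : (m : ℝ) ≠ 0 := by
    have : 0 < m := hm
    exact_mod_cast this.ne'
  have h1 : ∀ j, ∃ z : ℤ, (m : ℝ) ^ A * (F : ℝ) ^ J *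
      ((c j : ℝ) * (hr (k j) m / (m : ℝ) ^ a j)) = z := by
    intro j
    obtain ⟨z, hz⟩ := hr_int F (k j) m hF
    refine ⟨c j * (m : ℤ) ^ (A - a j) * (F : ℤ) ^ (J - (k j).sum) * z, ?_⟩
    push_cast
    rw [← hz]
    have h2 : (m : ℝ) ^ A = (m : ℝ) ^ (A - a j) * (m : ℝ) ^ a j := by
      rw [← pow_add, Nat.sub_add_cancel (ha j)]
    have h3 : (F : ℝ) ^ J = (F : ℝ) ^ (J - (k j).sum) * (F : ℝ) ^ (k j).sum := by
      rw [← pow_add, Nat.sub_add_cancel (hk j)]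
    rw [h2, h3]
    field_simp
  choose z hz using h1
  refine ⟨∑ j, z j, ?_⟩
  unfold Gf
  rw [Finset.mul_sum]
  push_cast
  exact Finset.sum_congr rfl fun j _ => hz j

lemma Gf_sum {a : ι → ℕ} {k : ι → List ℕ} {c : ι → ℤ} (hk : ∀ j, ∀ x ∈ k j, 1 ≤ x)
    (ha : ∀ j, 3 ≤ a j) : ∑ j, (c j : ℝ) * mz (a j :: k j) = tl (Gf a k c) 1 := by
  have h1 : ∀ j, Summable fun m : ℕ => hr (k j) (m + 1) / ((m + 1 : ℕ) : ℝ) ^ a j := by
    intro j
    refine tail_sum (f := fun m => hr (k j) m / (m : ℝ) ^ a j) (C := 1) (A := 1) (σ := a j)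
      zero_le_one (ha j) (fun m hm => ?_) le_rfl
    rw [abs_of_nonneg (div_nonneg (hr_nn _ _) (by positivity)), one_mul, pow_one, div_eq_mul_inv]
    exact mul_le_mul_of_nonneg_right (Pool.Agent.Y777.AM.hr_le_self (k j) (hk j) m hm)
      (by positivity)
  have h2 : ∀ j, mz (a j :: k j) = ∑' m : ℕ, hr (k j) (m + 1) / ((m + 1 : ℕ) : ℝ) ^ a j := by
    intro j
    rw [mz]
  unfold tl Gf
  rw [Summable.tsum_finsetSum fun j _ => (h1 j).mul_left (c j : ℝ)]
  exact Finset.sum_congr rfl fun j _ => by rw [h2, tsum_mul_left]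

/-- **the explicit lower bound** -/
theorem explicit (M D J r K : ℕ) (a : ι → ℕ) (k : ι → List ℕ) (c : ι → ℤ) (a0 : ℤ)
    (hk : ∀ j, (k j).length ≤ r ∧ (∀ x ∈ k j, 1 ≤ x) ∧ (k j).sum ≤ J)
    (ha : ∀ j, M ≤ a j ∧ a j ≤ M + D) (hinj : Function.Injective fun j => (a j, k j))
    (hc : a0 ≠ 0 ∨ c ≠ 0) (hK : (D + 1) * (J + 2) ^ r + 2 ≤ K) (hM : 3 ≤ M) (Cs : ℝ) (hCs : 1 ≤ Cs)
    (hC : ∑ j, |(c j : ℝ)| ≤ Cs)
    (hcond : 4 * Cs * ((K : ℝ) + 1) ^ (D + 3 + J * K) ≤ 2 ^ (M / K)) :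
    (2 * (K : ℝ) ^ (M + D + J * K))⁻¹ ≤ |(a0 : ℝ) + ∑ j, (c j : ℝ) * mz (a j :: k j)| := by
  classical
  have hK2 : 2 ≤ K := by omega
  have hKr : (2 : ℝ) ≤ K := by exact_mod_cast hK2
  have hk1 : ∀ j, ∀ x ∈ k j, 1 ≤ x := fun j => (hk j).2.1
  set G : ℕ → ℝ := Gf a k c with hG
  have hbd : ∀ m, 1 ≤ m → |G m| ≤ Cs * (m : ℝ) ^ 1 * ((m : ℝ) ^ M)⁻¹ :=
    fun m hm => Gf_bd hk1 (fun j => (ha j).1) hC m hm
  have hCs0 : 0 ≤ Cs := zero_le_one.trans hCs
  have hsum := tail_sum (f := G) hCs0 (A := 1) (σ := M) hM hbd (k := 1) le_rfl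
  have hS : ∑ j, (c j : ℝ) * mz (a j :: k j) = tl G 1 :=
    Gf_sum hk1 fun j => hM.trans (ha j).1
  rw [hS]
  have hsplit : ∀ m, 1 ≤ m → tl G 1 = ∑ i ∈ Finset.Ico 1 m, G i + tl G m := by
    intro m hm
    rw [tail_split hsum hm]
    ring
  have hG1 : ∃ z : ℤ, G 1 = z := by
    obtain ⟨z, hz⟩ := Gf_int (a := a) (k := k) (c := c) (A := M + D) (J := J) (F := 1) (m := 1)
      le_rfl (fun i h1 h2 => by omega) (fun j => (hk j).2.2) (fun j => (ha j).2)
    exact ⟨z, by rw [← hz]; simp [hG]⟩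
  obtain ⟨z1, hz1⟩ := hG1
  have htl : ∀ m, 1 ≤ m → |tl G m| ≤ 2 * Cs * (m : ℝ) ^ 3 * ((m : ℝ) ^ M)⁻¹ := by
    intro m hm
    refine (tail_bd (f := G) hCs0 (A := 1) (σ := M) hM hbd hm).trans ?_
    have h1 := ze2_le
    have h2 : 0 ≤ (m : ℝ) ^ 3 * ((m : ℝ) ^ M)⁻¹ := by positivity
    have h3 : Cs * ze 2 ≤ 2 * Cs := by nlinarith
    calc Cs * ze 2 * (m : ℝ) ^ (1 + 2) * ((m : ℝ) ^ M)⁻¹
        = (Cs * ze 2) * ((m : ℝ) ^ 3 * ((m : ℝ) ^ M)⁻¹) := by ring
      _ ≤ (2 * Cs) * ((m : ℝ) ^ 3 * ((m : ℝ) ^ M)⁻¹) := mul_le_mul_of_nonneg_right h3 h2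
      _ = _ := by ring
  have hcond1 : 4 * Cs * ((K : ℝ) + 1) ^ (D + 3) ≤ 2 ^ (M / K) := by
    refine le_trans ?_ hcond
    refine mul_le_mul_of_nonneg_left ?_ (by positivity)
    exact pow_le_pow_right₀ (by linarith) (Nat.le_add_right _ _)
  by_cases hP : (a0 : ℝ) + G 1 = 0
  · -- the second case
    have hcne : c ≠ 0 := by
      rcases hc with hc | hc
      · rintro rfl
        apply hc
        have h1 : G 1 = 0 := by
          rw [hG]
          unfold Gf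
          simp
        rw [h1, add_zero] at hP
        exact_mod_cast hP
      · exact hc
    have hex : ∃ m, 2 ≤ m ∧ m ≤ K ∧ G m ≠ 0 := by
      by_contra hcon
      push Not at hcon
      refine box_signs J r D (fun j => (a j : ℤ)) k (fun j => (c j : ℝ))
        (fun j => ⟨(hk j).1, fun x hx => ⟨hk1 j x hx, (List.le_sum_of_mem hx).trans (hk j).2.2⟩⟩)
        (fun i j => by
          have h1 := (ha i).2
          have h2 := (ha j).1
          omega)
        (fun i j h => hinj (by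
          simp only [Prod.mk.injEq, Nat.cast_inj] at h ⊢
          exact h))
        (fun h => hcne (by
          funext j
          have h1 := congrFun h j
          simpa using h1)) K ⟨fun i => 2 + i, 1, Or.inl rfl, by norm_num, by
          show 2 + (D + 1) * (J + 2) ^ r ≤ K
          omega,
          fun i _ => by show 2 + i < 2 + (i + 1); omega, fun i hi => ?_⟩
      rw [← Gf_cmb]
      have h1 := hcon (2 + i) (by omega) (by omega)
      rw [hG] at h1
      rw [h1, mul_zero]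
    have hfind := Nat.find_spec hex
    set m := Nat.find hex with hm
    have hmin : ∀ i, 2 ≤ i → i < m → G i = 0 := by
      intro i h1 h2
      by_contra h3
      exact Nat.find_min hex h2 ⟨h1, by omega, h3⟩
    obtain ⟨hm2, hmK, hmG⟩ := hfind
    have h1 : tl G 1 = G 1 + G m + tl G (m + 1) := by
      rw [hsplit (m + 1) (by omega)]
      congr 1
      rw [Finset.sum_Ico_succ_top (by omega), Finset.sum_eq_sum_Ico_succ_bot (by omega),
        Finset.sum_eq_zero fun i hi => ?_]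
      · ring
      · rw [Finset.mem_Ico] at hi
        exact hmin i (by omega) hi.2
    have h2 : (a0 : ℝ) + tl G 1 = G m + tl G (m + 1) := by
      rw [h1]
      linarith
    rw [h2]
    obtain ⟨z, hz⟩ := Gf_int (a := a) (k := k) (c := c) (A := M + D) (J := J)
      (F := (m - 1).factorial) (m := m) (by omega)
      (fun i h1 h2 => Nat.dvd_factorial h1 (by omega)) (fun j => (hk j).2.2) (fun j => (ha j).2)
    have hm0 : (0 : ℝ) < m := by exact_mod_cast (by omega : 0 < m)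
    have hF0 : (0 : ℝ) < ((m - 1).factorial : ℝ) := by exact_mod_cast Nat.factorial_pos _
    have hden : (0 : ℝ) < (m : ℝ) ^ (M + D) * ((m - 1).factorial : ℝ) ^ J := by positivity
    have hz1' : (1 : ℝ) ≤ (m : ℝ) ^ (M + D) * ((m - 1).factorial : ℝ) ^ J * |G m| := by
      have h3 : z ≠ 0 := by
        rintro rfl
        rw [Int.cast_zero] at hz
        rcases mul_eq_zero.1 hz with h4 | h4
        · exact hden.ne' h4
        · exact hmG h4
      have h4 : (1 : ℝ) ≤ |(z : ℝ)| := by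
        rw [← Int.cast_abs]
        exact_mod_cast Int.one_le_abs h3
      rwa [← hz, abs_mul, abs_of_pos hden] at h4
    have hfac : ((m - 1).factorial : ℝ) ≤ (m : ℝ) ^ K := by
      have h3 : (m - 1).factorial ≤ m ^ K := by
        calc (m - 1).factorial ≤ (m - 1) ^ (m - 1) := Nat.factorial_le_pow _
          _ ≤ m ^ (m - 1) := Nat.pow_le_pow_left (Nat.sub_le _ _) _
          _ ≤ m ^ K := Nat.pow_le_pow_right (by omega) (by omega)
      exact_mod_cast h3
    have hdenle : (m : ℝ) ^ (M + D) * ((m - 1).factorial : ℝ) ^ J ≤ (m : ℝ) ^ (M + D + J * K) := by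
      rw [pow_add _ (M + D), mul_comm J K, pow_mul]
      exact mul_le_mul_of_nonneg_left (pow_le_pow_left₀ hF0.le hfac _) (by positivity)
    have hlow : ((m : ℝ) ^ (M + D + J * K))⁻¹ ≤ |G m| := by
      rw [inv_le_iff_one_le_mul₀ (by positivity), mul_comm]
      exact hz1'.trans (mul_le_mul_of_nonneg_right hdenle (abs_nonneg _))
    have htail : |tl G (m + 1)| ≤ ((m : ℝ) ^ (M + D + J * K))⁻¹ / 2 := by
      refine (htl (m + 1) (by omega)).trans ?_
      have h3 := two_pow_le (M := M) (K := K) (m := m) (by omega) hmK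
      have h4 : (((m + 1 : ℕ) : ℝ)) ^ 3 * (m : ℝ) ^ (D + J * K) ≤
          ((K : ℝ) + 1) ^ (D + 3 + J * K) := by
        have h5 : ((m + 1 : ℕ) : ℝ) ≤ (K : ℝ) + 1 := by
          push_cast
          have : (m : ℝ) ≤ K := by exact_mod_cast hmK
          linarith
        have h6 : (m : ℝ) ≤ (K : ℝ) + 1 := by
          have : (m : ℝ) ≤ K := by exact_mod_cast hmK
          linarith
        calc (((m + 1 : ℕ) : ℝ)) ^ 3 * (m : ℝ) ^ (D + J * K)
            ≤ ((K : ℝ) + 1) ^ 3 * ((K : ℝ) + 1) ^ (D + J * K) := by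
              refine mul_le_mul (pow_le_pow_left₀ (by positivity) h5 _)
                (pow_le_pow_left₀ hm0.le h6 _) (by positivity) (by positivity)
          _ = _ := by
              rw [← pow_add]
              congr 1
              omega
      have h7 : 4 * Cs * (((m + 1 : ℕ) : ℝ) ^ 3 * (m : ℝ) ^ (D + J * K)) * (m : ℝ) ^ M ≤
          ((m + 1 : ℕ) : ℝ) ^ M := by
        refine le_trans ?_ h3
        refine mul_le_mul_of_nonneg_right (le_trans ?_ hcond) (by positivity)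
        exact mul_le_mul_of_nonneg_left h4 (by positivity)
      have h8 : (0 : ℝ) < ((m + 1 : ℕ) : ℝ) ^ M := by positivity
      rw [← div_eq_mul_inv, div_le_iff₀ h8]
      have h9 : (m : ℝ) ^ (M + D + J * K) = (m : ℝ) ^ (D + J * K) * (m : ℝ) ^ M := by
        rw [← pow_add]
        congr 1
        omega
      rw [h9]
      have h10 : (0 : ℝ) < (m : ℝ) ^ (D + J * K) * (m : ℝ) ^ M := by positivity
      rw [inv_eq_one_div, div_div, div_mul_eq_mul_div, one_mul, le_div_iff₀ (by positivity)]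
      calc 2 * Cs * ((m + 1 : ℕ) : ℝ) ^ 3 * ((m : ℝ) ^ (D + J * K) * (m : ℝ) ^ M * 2)
          = 4 * Cs * (((m + 1 : ℕ) : ℝ) ^ 3 * (m : ℝ) ^ (D + J * K)) * (m : ℝ) ^ M := by ring
        _ ≤ _ := h7
    have h11 : ((m : ℝ) ^ (M + D + J * K))⁻¹ / 2 ≤ |G m + tl G (m + 1)| := by
      have h12 : |G m| ≤ |G m + tl G (m + 1)| + |tl G (m + 1)| := by
        calc |G m| = |(G m + tl G (m + 1)) - tl G (m + 1)| := by ring_nf
          _ ≤ _ := abs_sub _ _
      linarith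
    refine le_trans ?_ h11
    rw [mul_inv, mul_comm, ← div_eq_mul_inv]
    refine div_le_div_of_nonneg_right ?_ (by norm_num)
    refine inv_anti₀ (by positivity) ?_
    exact pow_le_pow_left₀ hm0.le (by exact_mod_cast hmK) _
  · -- the first case
    have h1 : tl G 1 = G 1 + tl G 2 := by
      rw [hsplit 2 (by norm_num)]
      simp
    have h2 : (1 : ℝ) ≤ |(a0 : ℝ) + G 1| := by
      rw [hz1] at hP ⊢
      have h3 : a0 + z1 ≠ 0 := by
        intro h
        apply hP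
        exact_mod_cast h
      have h4 : (1 : ℝ) ≤ ((|a0 + z1| : ℤ) : ℝ) := by exact_mod_cast Int.one_le_abs h3
      rw [Int.cast_abs] at h4
      push_cast at h4
      exact h4
    have h3 : |tl G 2| ≤ 1 / 2 := by
      refine (htl 2 (by norm_num)).trans ?_
      have h4 : (2 : ℝ) ^ (M / K) ≤ 2 ^ M := pow_le_pow_right₀ one_le_two (Nat.div_le_self _ _)
      have h5 : (27 : ℝ) ≤ ((K : ℝ) + 1) ^ (D + 3) := by
        calc (27 : ℝ) = 3 ^ 3 := by norm_num
          _ ≤ ((K : ℝ) + 1) ^ 3 := pow_le_pow_left₀ (by norm_num) (by linarith) _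
          _ ≤ ((K : ℝ) + 1) ^ (D + 3) := pow_le_pow_right₀ (by linarith) (by omega)
      have h6 : 4 * Cs * 27 ≤ 2 ^ M := by
        refine le_trans ?_ (hcond1.trans h4)
        exact mul_le_mul_of_nonneg_left h5 (by positivity)
      have h7 : (0 : ℝ) < 2 ^ M := by positivity
      rw [← div_eq_mul_inv]
      push_cast
      rw [div_le_iff₀ h7]
      nlinarith
    have h4 : 1 / 2 ≤ |(a0 : ℝ) + tl G 1| := by
      rw [h1, ← add_assoc]
      have h12 : |(a0 : ℝ) + G 1| ≤ |(a0 : ℝ) + G 1 + tl G 2| + |tl G 2| := by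
        calc |(a0 : ℝ) + G 1| = |((a0 : ℝ) + G 1 + tl G 2) - tl G 2| := by ring_nf
          _ ≤ _ := abs_sub _ _
      linarith
    refine le_trans ?_ h4
    rw [one_div]
    refine inv_anti₀ two_pos ?_
    have h5 : (1 : ℝ) ≤ (K : ℝ) ^ (M + D + J * K) := one_le_pow₀ (by linarith)
    linarith

end

end Pool.Agent.R404.MZ
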