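import Pool.Agent.R404.MZ.Few

/-!
# An explicit estimate for the number of changes of sign of combinations of harmonic sums
-/

set_option autoImplicit false

namespace Pool.Agent.R404.MZ

open Finset Polynomial
open Pool.Agent.Y760.ZF
open Pool.Agent.Y760.ZG (hr hr_nil hr_cons cl hr_cl)

/-! ### differences of polynomials -/

/-- the difference -/
noncomputable def dp (p : ℝ[X]) : ℝ[X] := p.comp (X + C 1) - p

lemma dp_zero : dp 0 = 0 := by
  unfold dp
  rw [zero_comp, sub_zero]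

lemma dp_degree {p : ℝ[X]} (hp : p ≠ 0) : (dp p).degree < p.degree := by
  unfold dp
  have h1 : p.comp (X + C 1) = taylor 1 p := by
    rw [taylor_apply]
  rw [h1]
  have h2 := degree_sub_lt (p := taylor 1 p) (q := p) (by rw [degree_taylor])
    (by rwa [Ne, taylor_eq_zero]) (by rw [leadingCoeff_taylor])
  rwa [degree_taylor] at h2

lemma dp_iter : ∀ (d : ℕ) (p : ℝ[X]), p.degree < d → dp^[d] p = 0 := by
  intro d
  induction d with
  | zero =>
    intro p hp
    rw [Nat.cast_zero] at hp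
    exact degree_eq_bot.1 (Nat.WithBot.lt_zero_iff.1 hp)
  | succ d ih =>
    intro p hp
    rw [Function.iterate_succ_apply]
    by_cases h0 : p = 0
    · rw [h0, dp_zero]
      refine ih 0 ?_
      rw [degree_zero]
      exact WithBot.bot_lt_coe _
    · refine ih _ ?_
      have h1 := dp_degree h0
      have h2 : p.degree ≤ (d : WithBot ℕ) := by
        rw [degree_eq_natDegree h0] at hp ⊢
        have h5 : p.natDegree < d + 1 := by exact_mod_cast hp
        exact_mod_cast Nat.lt_succ_iff.1 h5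
      exact h1.trans_le h2

/-! ### differences of sequences -/

/-- the difference -/
def ds (f : ℕ → ℝ) (n : ℕ) : ℝ := f (n + 1) - f n

lemma WA.ds_iter {f : ℕ → ℝ} : ∀ (t : ℕ) {g : ℕ → ℝ} {hi R : ℕ}, WA g 1 hi (R + t) →
    ∃ hi', WA (ds^[t] g) 1 hi' R := by
  intro t
  induction t with
  | zero =>
    intro g hi R h
    exact ⟨hi, h⟩
  | succ t ih =>
    intro g hi R h
    rw [Function.iterate_succ_apply]
    exact ih (g := ds g) (WA.diff (R := R + t) h)

lemma ds_const {f : ℕ → ℝ} (h : ∀ n, 1 ≤ n → ds f n = 0) : ∀ n, 1 ≤ n → f n = f 1 := by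
  intro n hn
  induction n, hn using Nat.le_induction with
  | base => rfl
  | succ n hn ih =>
    have h1 := h n hn
    unfold ds at h1
    linarith

lemma WA.poly' : ∀ (d : ℕ) {f : ℕ → ℝ} {hi : ℕ}, (∀ n, 1 ≤ n → (ds^[d + 1] f) n = 0) →
    WA f 1 hi (d + 1) → ∀ n, 1 ≤ n → f n = 0 := by
  have key : ∀ {f : ℕ → ℝ} {hi R : ℕ}, (∀ n, 1 ≤ n → f n = f 1) → WA f 1 hi (R + 1) →
      ∀ n, 1 ≤ n → f n = 0 := by
    intro f hi R hc h n hn
    obtain ⟨u, ε, h1, h2, h3, h4, h5⟩ := h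
    have h6 := h5 0 (Nat.zero_le _)
    have h7 := h5 1 (by omega)
    have h8 := h4 0 (by omega)
    simp only [zero_add] at h8
    rw [hc _ h2] at h6
    rw [hc _ (by omega : 1 ≤ u 1)] at h7
    rw [hc n hn]
    rcases h1 with h1 | h1 <;> rw [h1] at h6 h7 <;> norm_num at h6 h7 <;> linarith
  intro d
  induction d with
  | zero =>
    intro f hi h hWA
    exact key (ds_const h) hWA
  | succ d ih =>
    intro f hi h hWA
    have h1 : ∀ n, 1 ≤ n → ds f n = 0 := by
      refine ih (f := ds f) (fun n hn => ?_) (WA.diff (R := d + 1) hWA)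
      have h2 := h n hn
      rwa [Function.iterate_succ_apply] at h2
    exact key (ds_const h1) hWA

/-! ### the coefficients of the differences -/

open Classical in
/-- the new coefficients -/
noncomputable def nx (Λ : Finset (List ℕ+)) (J t : ℕ) (ψ : List ℕ+ → ℝ[X]) (γ : List ℕ+) : ℝ[X] :=
  X ^ J * (ψ γ).comp (X + C 1) - (X + C (t : ℝ)) ^ J * ψ γ +
    ∑ β ∈ Λ.filter (fun β => β ≠ [] ∧ β.tail = γ), X ^ (J - hv β) * (ψ β).comp (X + C 1)

lemma nx_eval (Λ : Finset (List ℕ+)) (hΛ : ∀ t β, (t :: β) ∈ Λ → β ∈ Λ) (J t : ℕ)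
    (φ : List ℕ+ → ℝ[X]) (hτ : ∀ β ∈ Λ, hv β ≤ J) {k : ℕ} (hk : 1 ≤ k) :
    Fc Λ (nx Λ J t φ) k = (k : ℝ) ^ J * Fc Λ φ (k + 1) - ((k : ℝ) + t) ^ J * Fc Λ φ k := by
  classical
  have hk0 : (k : ℝ) ≠ 0 := by
    have : 0 < k := by omega
    exact_mod_cast this.ne'
  have hcomp : ∀ β, ((φ β).comp (X + C 1)).eval (k : ℝ) = (φ β).eval ((k + 1 : ℕ) : ℝ) := by
    intro β
    rw [eval_comp, eval_add, eval_X, eval_C]
    push_cast
    rfl
  have h1 : Fc Λ φ (k + 1) = ∑ β ∈ Λ, (φ β).eval ((k + 1 : ℕ) : ℝ) * hr (cl β) k +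
      ∑ γ ∈ Λ, (∑ β ∈ Λ.filter (fun β => β ≠ [] ∧ β.tail = γ),
        (φ β).eval ((k + 1 : ℕ) : ℝ) / (k : ℝ) ^ hv β) * hr (cl γ) k := by
    have e1 : ∀ β ∈ Λ, (φ β).eval ((k + 1 : ℕ) : ℝ) * hr (cl β) (k + 1) =
        (φ β).eval ((k + 1 : ℕ) : ℝ) * hr (cl β) k +
          if β ≠ [] then (φ β).eval ((k + 1 : ℕ) : ℝ) / (k : ℝ) ^ hv β * hr (cl β.tail) k
          else 0 := by
      intro β _
      by_cases hβ : β = []
      · rw [if_neg (by simpa using hβ), add_zero, hβ]
        show _ * hr [] (k + 1) = _ * hr [] k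
        rw [hr_nil, hr_nil]
      · rw [if_pos hβ, hr_succ hβ hk]
        ring
    unfold Fc
    rw [Finset.sum_congr rfl e1, Finset.sum_add_distrib]
    congr 1
    rw [← Finset.sum_filter]
    have e2 : ∀ γ ∈ Λ, (∑ β ∈ Λ.filter (fun β => β ≠ [] ∧ β.tail = γ),
        (φ β).eval ((k + 1 : ℕ) : ℝ) / (k : ℝ) ^ hv β) * hr (cl γ) k =
        ∑ β ∈ (Λ.filter (fun β => β ≠ [])).filter (fun β => β.tail = γ),
          (φ β).eval ((k + 1 : ℕ) : ℝ) / (k : ℝ) ^ hv β * hr (cl β.tail) k := by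
      intro γ _
      rw [Finset.filter_filter, Finset.sum_mul]
      refine Finset.sum_congr rfl fun β hβ => ?_
      rw [(Finset.mem_filter.1 hβ).2.2]
    rw [Finset.sum_congr rfl e2]
    symm
    refine Finset.sum_fiberwise_of_maps_to (fun β hβ => ?_) _
    rw [Finset.mem_filter] at hβ
    obtain ⟨t, β', rfl⟩ := List.exists_cons_of_ne_nil hβ.2
    exact hΛ t β' hβ.1
  rw [h1]
  unfold Fc
  have h2 : ∀ γ ∈ Λ, (nx Λ J t φ γ).eval (k : ℝ) * hr (cl γ) k =
      (k : ℝ) ^ J * ((φ γ).eval ((k + 1 : ℕ) : ℝ) * hr (cl γ) k +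
        (∑ β ∈ Λ.filter (fun β => β ≠ [] ∧ β.tail = γ),
          (φ β).eval ((k + 1 : ℕ) : ℝ) / (k : ℝ) ^ hv β) * hr (cl γ) k) -
        ((k : ℝ) + t) ^ J * ((φ γ).eval (k : ℝ) * hr (cl γ) k) := by
    intro γ _
    unfold nx
    rw [eval_add, eval_sub, eval_mul, eval_mul, eval_pow, eval_pow, eval_add, eval_X, eval_C, hcomp,
      eval_finsetSum]
    have e1 : ∑ β ∈ Λ.filter (fun β => β ≠ [] ∧ β.tail = γ),
        (X ^ (J - hv β) * (φ β).comp (X + C 1)).eval (k : ℝ) =
        (k : ℝ) ^ J * ∑ β ∈ Λ.filter (fun β => β ≠ [] ∧ β.tail = γ),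
          (φ β).eval ((k + 1 : ℕ) : ℝ) / (k : ℝ) ^ hv β := by
      rw [Finset.mul_sum]
      refine Finset.sum_congr rfl fun β hβ => ?_
      rw [Finset.mem_filter] at hβ
      rw [eval_mul, eval_pow, eval_X, hcomp]
      have h3 : (k : ℝ) ^ J = (k : ℝ) ^ (J - hv β) * (k : ℝ) ^ hv β := by
        rw [← pow_add]
        congr 1
        have := hτ β hβ.1
        omega
      rw [h3]
      field_simp
    rw [e1]
    ring
  rw [Finset.sum_congr rfl h2, Finset.sum_sub_distrib, ← Finset.mul_sum, ← Finset.mul_sum,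
    Finset.sum_add_distrib]

/-- the coefficients of the differences of order `t` -/
noncomputable def it (Λ : Finset (List ℕ+)) (J : ℕ) (φ : List ℕ+ → ℝ[X]) : ℕ → List ℕ+ → ℝ[X]
  | 0 => φ
  | t + 1 => nx Λ J t (it Λ J φ t)

/-- the denominator -/
noncomputable def dn (J t : ℕ) : ℝ[X] := ∏ i ∈ Finset.range t, (X + C (i : ℝ)) ^ J

lemma dn_pos (J t : ℕ) {x : ℝ} (hx : 0 < x) : 0 < (dn J t).eval x := by
  unfold dn
  rw [eval_prod]
  refine Finset.prod_pos fun i _ => ?_
  rw [eval_pow, eval_add, eval_X, eval_C]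
  positivity

lemma dn_succ (J t : ℕ) : dn J (t + 1) = (X + C (t : ℝ)) ^ J * dn J t := by
  unfold dn
  rw [Finset.prod_range_succ, mul_comm]

lemma dn_shift (J t : ℕ) : dn J (t + 1) = X ^ J * (dn J t).comp (X + C 1) := by
  unfold dn
  rw [Finset.prod_range_succ', Polynomial.prod_comp, mul_comm]
  congr 1
  · simp
  · refine Finset.prod_congr rfl fun i _ => ?_
    rw [pow_comp, add_comp, X_comp, C_comp, add_assoc, ← C_add]
    congr 3
    push_cast
    ring

lemma it_eval (Λ : Finset (List ℕ+)) (hΛ : ∀ t β, (t :: β) ∈ Λ → β ∈ Λ) (J : ℕ)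
    (φ : List ℕ+ → ℝ[X]) (hτ : ∀ β ∈ Λ, hv β ≤ J) (t : ℕ) : ∀ k : ℕ, 1 ≤ k →
    Fc Λ (it Λ J φ t) k = (dn J t).eval (k : ℝ) * (ds^[t] (Fc Λ φ)) k := by
  induction t with
  | zero =>
    intro k hk
    unfold dn
    simp [it]
  | succ t ih =>
    intro k hk
    rw [it, nx_eval Λ hΛ J t _ hτ hk, ih k hk, ih (k + 1) (by omega), Function.iterate_succ_apply']
    have h1 : (dn J (t + 1)).eval (k : ℝ) = (k : ℝ) ^ J * (dn J t).eval ((k + 1 : ℕ) : ℝ) := by
      rw [dn_shift, eval_mul, eval_pow, eval_X, eval_comp, eval_add, eval_X, eval_C]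
      push_cast
      rfl
    have h2 : (dn J (t + 1)).eval (k : ℝ) = ((k : ℝ) + t) ^ J * (dn J t).eval (k : ℝ) := by
      rw [dn_succ, eval_mul, eval_pow, eval_add, eval_X, eval_C]
    unfold ds
    rw [mul_sub]
    nth_rewrite 1 [h1]
    rw [h2]
    ring

lemma it_degree (Λ : Finset (List ℕ+)) (J D : ℕ) (φ : List ℕ+ → ℝ[X])
    (hφ : ∀ β, (φ β).natDegree ≤ D) (t : ℕ) : ∀ β, (it Λ J φ t β).natDegree ≤ D + J * t := by
  classical
  induction t with
  | zero =>
    intro β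
    simpa [it] using hφ β
  | succ t ih =>
    intro β
    have h0 : ∀ γ, ((it Λ J φ t γ).comp (X + C 1)).natDegree ≤ D + J * t := by
      intro γ
      refine natDegree_comp_le.trans ?_
      rw [natDegree_X_add_C, mul_one]
      exact ih γ
    rw [it, nx]
    refine (natDegree_add_le _ _).trans (max_le ((natDegree_sub_le _ _).trans (max_le ?_ ?_)) ?_)
    · refine natDegree_mul_le.trans ?_
      have h1 : (X ^ J : ℝ[X]).natDegree ≤ J := by rw [natDegree_X_pow]
      have h2 := h0 β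
      have h3 : J * (t + 1) = J * t + J := by ring
      omega
    · refine natDegree_mul_le.trans ?_
      have h1 : ((X + C (t : ℝ)) ^ J : ℝ[X]).natDegree ≤ J := by
        refine natDegree_pow_le.trans ?_
        rw [natDegree_X_add_C, mul_one]
      have h2 := ih β
      have h3 : J * (t + 1) = J * t + J := by ring
      omega
    · refine natDegree_sum_le_of_forall_le _ _ fun γ _ => natDegree_mul_le.trans ?_
      have h1 : (X ^ (J - hv γ) : ℝ[X]).natDegree ≤ J := by
        rw [natDegree_X_pow]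
        omega
      have h2 := h0 γ
      have h3 : J * (t + 1) = J * t + J := by ring
      omega

/-- the longest words -/
lemma it_top (Λ : Finset (List ℕ+)) (J : ℕ) (φ : List ℕ+ → ℝ[X]) {r : ℕ}
    (hr : ∀ β ∈ Λ, β.length ≤ r) {γ : List ℕ+} (hγ : γ.length = r) (t : ℕ) :
    it Λ J φ t γ = dn J t * dp^[t] (φ γ) := by
  classical
  induction t with
  | zero =>
    unfold dn
    simp [it]
  | succ t ih =>
    rw [it, nx, ih, Finset.filter_eq_empty_iff.2, Finset.sum_empty, add_zero,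
      Function.iterate_succ_apply']
    · unfold dp
      rw [mul_sub, mul_comp, ← mul_assoc, ← dn_shift, ← mul_assoc, ← dn_succ]
    · rintro β hβ ⟨h1, h2⟩
      obtain ⟨s, β', rfl⟩ := List.exists_cons_of_ne_nil h1
      have h3 := hr _ hβ
      rw [List.tail_cons] at h2
      rw [h2, List.length_cons, hγ] at h3
      omega

/-- the bound -/
def Bd (J : ℕ) : ℕ → ℕ → ℕ
  | 0, D => D + 1
  | r + 1, D => (D + 1) + Bd J r (D + J * (D + 1))

/-- **explicit bound for the changes of sign** -/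
theorem box_wa (J : ℕ) : ∀ (r D : ℕ) (Λ : Finset (List ℕ+)), (∀ β ∈ Λ, β.length ≤ r) →
    (∀ t β, (t :: β) ∈ Λ → β ∈ Λ) → (∀ β ∈ Λ, hv β ≤ J) → ∀ φ : List ℕ+ → ℝ[X],
    (∀ β, (φ β).natDegree ≤ D) → ∀ hi, WA (Fc Λ φ) 1 hi (Bd J r D) → ∀ β ∈ Λ, φ β = 0 := by
  classical
  intro r
  induction r with
  | zero =>
    intro D Λ hlen hsuf hJ φ hφ hi hWA
    have h1 : ∀ n, 1 ≤ n → Fc Λ φ n = 0 := by
      refine WA.poly' D (fun n hn => ?_) hWA
      have h2 := it_eval Λ hsuf J φ hJ (D + 1) n hn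
      have h3 : Fc Λ (it Λ J φ (D + 1)) n = 0 := by
        unfold Fc
        refine Finset.sum_eq_zero fun β hβ => ?_
        rw [it_top Λ J φ hlen (Nat.le_zero.1 (hlen β hβ)) (D + 1), dp_iter, mul_zero, eval_zero,
          zero_mul]
        refine lt_of_le_of_lt degree_le_natDegree ?_
        exact_mod_cast Nat.lt_succ_of_le (hφ β)
      rw [h3] at h2
      exact (mul_eq_zero.1 h2.symm).resolve_left (dn_pos J _ (by exact_mod_cast hn)).ne'
    exact ind_poly Λ φ 1 fun k hk => h1 k hk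
  | succ r ih =>
    intro D Λ hlen hsuf hJ φ hφ hi hWA
    set Λ' : Finset (List ℕ+) := Λ.filter fun β => β.length ≤ r with hΛ'
    have hval : ∀ n, 1 ≤ n → Fc Λ' (it Λ J φ (D + 1)) n =
        (dn J (D + 1)).eval (n : ℝ) * (ds^[D + 1] (Fc Λ φ)) n := by
      intro n hn
      rw [← it_eval Λ hsuf J φ hJ (D + 1) n hn]
      unfold Fc
      rw [hΛ', Finset.sum_filter]
      refine Finset.sum_congr rfl fun β hβ => ?_
      split_ifs with h
      · rfl
      · have h2 : β.length = r + 1 := by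
          have := hlen β hβ
          omega
        rw [it_top Λ J φ hlen h2 (D + 1), dp_iter, mul_zero, eval_zero, zero_mul]
        refine lt_of_le_of_lt degree_le_natDegree ?_
        exact_mod_cast Nat.lt_succ_of_le (hφ β)
    have hWA1 : ∃ hi', WA (ds^[D + 1] (Fc Λ φ)) 1 hi' (Bd J r (D + J * (D + 1))) := by
      refine WA.ds_iter (f := Fc Λ φ) (D + 1) (hi := hi) ?_
      rw [Bd, add_comm] at hWA
      exact hWA
    obtain ⟨hi', hWA2⟩ := hWA1
    have hWA3 : WA (Fc Λ' (it Λ J φ (D + 1))) 1 hi' (Bd J r (D + J * (D + 1))) :=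
      (hWA2.pos (g := fun n => (dn J (D + 1)).eval (n : ℝ)) fun n hn _ =>
        dn_pos J _ (by exact_mod_cast hn)).congr fun n hn _ => (hval n hn).symm
    have h0 := ih (D + J * (D + 1)) Λ' (fun β hβ => (Finset.mem_filter.1 hβ).2)
      (fun t β h => by
        rw [hΛ', Finset.mem_filter] at h ⊢
        refine ⟨hsuf t β h.1, ?_⟩
        have := h.2
        rw [List.length_cons] at this
        omega)
      (fun β hβ => hJ β (Finset.mem_filter.1 hβ).1) _ (it_degree Λ J D φ hφ (D + 1)) hi' hWA3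
    have h1 : ∀ n, 1 ≤ n → Fc Λ φ n = 0 := by
      refine WA.poly' D (fun n hn => ?_) (hWA.mono (R' := D + 1) (by rw [Bd]; omega))
      have h2 := hval n hn
      have h3 : Fc Λ' (it Λ J φ (D + 1)) n = 0 := by
        unfold Fc
        exact Finset.sum_eq_zero fun β hβ => by rw [h0 β hβ, eval_zero, zero_mul]
      rw [h3] at h2
      exact (mul_eq_zero.1 h2.symm).resolve_left (dn_pos J _ (by exact_mod_cast hn)).ne'
    exact ind_poly Λ φ 1 fun k hk => h1 k hk

lemma Bd_le (J : ℕ) : ∀ r D : ℕ, Bd J r D ≤ (D + 1) * (J + 2) ^ r := by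
  intro r
  induction r with
  | zero =>
    intro D
    rw [Bd]
    simp
  | succ r ih =>
    intro D
    rw [Bd]
    have h1 := ih (D + J * (D + 1))
    have h2 : (D + J * (D + 1) + 1) * (J + 2) ^ r = (D + 1) * (J + 1) * (J + 2) ^ r := by ring
    have h3 : (D + 1) * (J + 2) ^ (r + 1) =
        (D + 1) * (J + 1) * (J + 2) ^ r + (D + 1) * (J + 2) ^ r := by ring
    have h4 : D + 1 ≤ (D + 1) * (J + 2) ^ r := Nat.le_mul_of_pos_right _ (by positivity)
    omega

/-- the explicit bound for combinations -/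
theorem box_signs {ι : Type} [Fintype ι] (J r D : ℕ) (a : ι → ℤ) (k : ι → List ℕ) (c : ι → ℝ)
    (hk : ∀ j, (k j).length ≤ r ∧ ∀ x ∈ k j, 1 ≤ x ∧ x ≤ J) (ha : ∀ i j, a i ≤ a j + D)
    (hinj : Function.Injective (fun j => (a j, k j))) (hc : c ≠ 0) (hi : ℕ) :
    ¬ WA (cmb a k c) 1 hi ((D + 1) * (J + 2) ^ r) := by
  classical
  intro hWA0
  have hWA := hWA0.mono (Bd_le J r D)
  have hN : Nonempty ι := by
    by_contra h
    rw [not_nonempty_iff] at h
    exact hc (Subsingleton.elim c 0)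
  set kp : ι → List ℕ+ := fun j => (k j).map Nat.toPNat' with hkp
  have hcl : ∀ j, cl (kp j) = k j := fun j => cl_of (k j) fun x hx => ((hk j).2 x hx).1
  obtain ⟨j1, hj1⟩ := Finite.exists_max a
  set S : ℤ := a j1 with hSdef
  have hS : ∀ j, a j ≤ S := hj1
  set Λ0 : Finset (List ℕ+) := Finset.univ.image kp with hΛ0
  set φ : List ℕ+ → ℝ[X] := fun β => ∑ j, if kp j = β then C (c j) * X ^ (S - a j).toNat else 0
    with hφ
  have hsub : Λ0 ⊆ tls Λ0 := fun β hβ => mem_tls.2 ⟨β, hβ, List.suffix_refl _⟩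
  have hval : ∀ n : ℕ, 1 ≤ n → (n : ℝ) ^ S * cmb a k c n = Fc (tls Λ0) φ n := by
    intro n hn
    have hn0 : (n : ℝ) ≠ 0 := by exact_mod_cast (by omega : n ≠ 0)
    unfold Fc
    rw [hφ]
    simp only [eval_finsetSum]
    simp only [Finset.sum_mul]
    rw [Finset.sum_comm]
    unfold cmb
    rw [Finset.mul_sum]
    refine Finset.sum_congr rfl fun j _ => ?_
    rw [Finset.sum_eq_single (kp j)]
    · rw [if_pos rfl, eval_mul, eval_C, eval_pow, eval_X, hcl]
      unfold co
      have h1 : (n : ℝ) ^ (S - a j).toNat = (n : ℝ) ^ S * (n : ℝ) ^ (-(a j)) := by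
        rw [← zpow_natCast, Int.toNat_of_nonneg (sub_nonneg.2 (hS j)), ← zpow_add₀ hn0]
        rfl
      rw [h1]
      ring
    · intro β _ hβ
      rw [if_neg (Ne.symm hβ), eval_zero, zero_mul]
    · intro h
      exact absurd (hsub (Finset.mem_image_of_mem kp (Finset.mem_univ j))) h
  have hWA' : WA (Fc (tls Λ0) φ) 1 hi (Bd J r D) :=
    (hWA.pos (g := fun n => (n : ℝ) ^ S) fun n hn _ => by
      have : (0 : ℝ) < n := by exact_mod_cast hn
      exact zpow_pos this _).congr fun n hn _ => hval n hn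
  have hzero := box_wa J r D (tls Λ0) ?_ ?_ ?_ φ ?_ hi hWA'
  · obtain ⟨j0, hj0⟩ : ∃ j, c j ≠ 0 := by
      by_contra h
      push Not at h
      exact hc (funext h)
    have h0 := hzero (kp j0) (hsub (Finset.mem_image_of_mem kp (Finset.mem_univ j0)))
    apply hj0
    have h1 : (φ (kp j0)).coeff (S - a j0).toNat = c j0 := by
      rw [hφ]
      simp only [finsetSum_coeff]
      rw [Finset.sum_eq_single j0]
      · rw [if_pos rfl, coeff_C_mul, coeff_X_pow, if_pos rfl, mul_one]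
      · intro j _ hj
        split_ifs with h2
        · rw [coeff_C_mul, coeff_X_pow, if_neg, mul_zero]
          intro h3
          apply hj
          apply hinj
          have h4 : k j = k j0 := by rw [← hcl j, ← hcl j0, h2]
          have h5 := hS j
          have h6 := hS j0
          have h7 : a j = a j0 := by omega
          simp only [h4, h7]
        · exact coeff_zero _
      · intro h
        exact absurd (Finset.mem_univ j0) h
    rw [← h1, h0, coeff_zero]
  · intro β hβ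
    obtain ⟨γ, hγ, h1⟩ := mem_tls.1 hβ
    obtain ⟨j, _, rfl⟩ := Finset.mem_image.1 hγ
    refine h1.length_le.trans ?_
    rw [hkp]
    simp only [List.length_map]
    exact (hk j).1
  · intro t β h
    obtain ⟨γ, hγ, h1⟩ := mem_tls.1 h
    exact mem_tls.2 ⟨γ, hγ, (List.suffix_cons t β).trans h1⟩
  · intro β hβ
    obtain ⟨γ, hγ, h1⟩ := mem_tls.1 hβ
    obtain ⟨j, _, rfl⟩ := Finset.mem_image.1 hγ
    cases β with
    | nil => exact Nat.zero_le _
    | cons t β =>
      show (t : ℕ) ≤ J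
      have h2 : t ∈ kp j := h1.subset List.mem_cons_self
      rw [hkp] at h2
      obtain ⟨x, hx, rfl⟩ := List.mem_map.1 h2
      have h3 := (hk j).2 x hx
      rw [Nat.toPNat'_coe, if_pos (by omega : 0 < x)]
      exact h3.2
  · intro β
    rw [hφ]
    refine natDegree_sum_le_of_forall_le _ _ fun j _ => ?_
    split_ifs
    · refine (natDegree_C_mul_le _ _).trans ?_
      rw [natDegree_X_pow]
      have h1 := ha j1 j
      rw [← hSdef] at h1
      omega
    · rw [natDegree_zero]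
      exact Nat.zero_le _

/-- **explicit bound for the number of zeros** -/
theorem box_zeros {ι : Type} [Fintype ι] (J r D : ℕ) (a : ι → ℤ) (k : ι → List ℕ) (c : ι → ℝ)
    (hk : ∀ j, (k j).length ≤ r ∧ ∀ x ∈ k j, 1 ≤ x ∧ x ≤ J) (ha : ∀ i j, a i ≤ a j + D)
    (hinj : Function.Injective (fun j => (a j, k j))) (hc : c ≠ 0) (S : Finset ℝ)
    (hS : ∀ s ∈ S, (∀ j, 1 < s + a j) ∧ ∑ j, c j * zt (s + a j) (k j) = 0) :
    S.card ≤ (D + 1) * (J + 2) ^ r - 1 :=
  zeros_of_signs a k c (fun j x hx => ((hk j).2 x hx).1) hc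
    (fun hi => box_signs J r D a k c hk ha hinj hc hi) S hS

/-- some value among the first ones is not zero -/
theorem box_nonzero {ι : Type} [Fintype ι] (J r D : ℕ) (a : ι → ℤ) (k : ι → List ℕ) (c : ι → ℝ)
    (hk : ∀ j, (k j).length ≤ r ∧ ∀ x ∈ k j, 1 ≤ x ∧ x ≤ J) (ha : ∀ i j, a i ≤ a j + D)
    (hinj : Function.Injective (fun j => (a j, k j))) (hc : c ≠ 0) :
    ∃ m, 1 ≤ m ∧ m ≤ (D + 1) * (J + 2) ^ r + 1 ∧ cmb a k c m ≠ 0 := by
  by_contra h
  push Not at h
  refine box_signs J r D a k c hk ha hinj hc (1 + (D + 1) * (J + 2) ^ r) ⟨fun i => 1 + i, 1,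
    Or.inl rfl, le_rfl, le_rfl, fun i _ => by show 1 + i < 1 + (i + 1); omega, fun i hi => ?_⟩
  rw [h (1 + i) (by omega) (by omega), mul_zero]

end Pool.Agent.R404.MZ
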