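import Mathlib

/-!
# The rule of signs for Dirichlet series

If the real coefficients `f n` of a Dirichlet series change their sign at most `m` times and are not
all zero, then the series has at most `m` real zeros in the half line of absolute convergence.
-/

set_option autoImplicit false

namespace Pool.Agent.R404.MZ

open Finset

/-- the values of the Dirichlet series at real points -/
noncomputable def DS (f : ℕ → ℝ) (s : ℝ) : ℝ := (LSeries (fun n => (f n : ℂ)) (s : ℂ)).re

/-- `m` changes of sign -/
def SA (f : ℕ → ℝ) (m : ℕ) : Prop :=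
  ∃ (u : ℕ → ℕ) (ε : ℝ), (ε = 1 ∨ ε = -1) ∧ 1 ≤ u 0 ∧ (∀ i, i < m → u i < u (i + 1)) ∧
    ∀ i, i ≤ m → 0 < ε * (-1) ^ i * f (u i)

/-- abscissa at most `σ` -/
def AC (f : ℕ → ℝ) (σ : ℝ) : Prop := LSeries.abscissaOfAbsConv (fun n => (f n : ℂ)) ≤ (σ : EReal)

lemma AC.summable {f : ℕ → ℝ} {σ s : ℝ} (h : AC f σ) (hs : σ < s) :
    LSeriesSummable (fun n => (f n : ℂ)) (s : ℂ) := by
  refine LSeriesSummable_of_abscissaOfAbsConv_lt_re ?_
  rw [Complex.ofReal_re]
  exact lt_of_le_of_lt h (by exact_mod_cast hs)

lemma AC.log {f : ℕ → ℝ} {σ : ℝ} (h : AC f σ) : AC (fun n => Real.log n * f n) σ := by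
  have h1 : (fun n : ℕ => ((Real.log n * f n : ℝ) : ℂ)) = LSeries.logMul (fun n => (f n : ℂ)) := by
    funext n
    unfold LSeries.logMul
    push_cast
    rfl
  unfold AC
  rw [h1, LSeries.abscissaOfAbsConv_logMul]
  exact h

lemma AC.twist {f : ℕ → ℝ} {σ : ℝ} (h : AC f σ) (t : ℝ) :
    AC (fun n => (t - Real.log n) * f n) σ := by
  unfold AC
  refine LSeries.abscissaOfAbsConv_le_of_forall_lt_LSeriesSummable fun y hy => ?_
  have h1 := (h.summable hy).smul (t : ℂ)
  have h2 := h.log.summable hy
  have h3 := h1.sub h2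
  refine (LSeriesSummable_congr _ ?_).1 h3
  intro n hn
  simp only [Pi.sub_apply, Pi.smul_apply, smul_eq_mul]
  push_cast
  ring

lemma DS_hasDerivAt {f : ℕ → ℝ} {σ s : ℝ} (h : AC f σ) (hs : σ < s) :
    HasDerivAt (DS f) (- DS (fun n => Real.log n * f n) s) s := by
  have h0 : LSeries.abscissaOfAbsConv (fun n => (f n : ℂ)) < ((s : ℂ).re : EReal) := by
    rw [Complex.ofReal_re]
    exact lt_of_le_of_lt h (by exact_mod_cast hs)
  have h1 := (LSeries_hasDerivAt h0).real_of_complex
  have h2 : (fun n : ℕ => ((Real.log n * f n : ℝ) : ℂ)) = LSeries.logMul (fun n => (f n : ℂ)) := by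
    funext n
    unfold LSeries.logMul
    push_cast
    rfl
  unfold DS
  rw [h2]
  rw [Complex.neg_re] at h1
  exact h1

lemma DS_twist {f : ℕ → ℝ} {σ s : ℝ} (h : AC f σ) (hs : σ < s) (t : ℝ) :
    DS (fun n => (t - Real.log n) * f n) s = t * DS f s - DS (fun n => Real.log n * f n) s := by
  have h1 := (h.summable hs).smul (t : ℂ)
  have h2 := h.log.summable hs
  have h3 : LSeries (fun n : ℕ => (((t - Real.log n) * f n : ℝ) : ℂ)) (s : ℂ) =
      LSeries ((t : ℂ) • (fun n : ℕ => (f n : ℂ)) - fun n : ℕ => ((Real.log n * f n : ℝ) : ℂ))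
        (s : ℂ) := by
    refine LSeries_congr ?_ _
    intro n hn
    simp only [Pi.sub_apply, Pi.smul_apply, smul_eq_mul]
    push_cast
    ring
  unfold DS
  rw [h3, LSeries_sub h1 h2, LSeries_smul, Complex.sub_re, Complex.re_ofReal_mul]

lemma DS_neg {f : ℕ → ℝ} {s : ℝ} : DS (fun n => - f n) s = - DS f s := by
  unfold DS
  have h3 : LSeries (fun n => ((- f n : ℝ) : ℂ)) (s : ℂ) = LSeries (-(fun n => (f n : ℂ))) (s : ℂ) := by
    refine LSeries_congr ?_ _
    intro n hn
    simp
  rw [h3, LSeries_neg, Complex.neg_re]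

lemma AC.neg {f : ℕ → ℝ} {σ : ℝ} (h : AC f σ) : AC (fun n => - f n) σ := by
  unfold AC
  refine LSeries.abscissaOfAbsConv_le_of_forall_lt_LSeriesSummable fun y hy => ?_
  refine (LSeriesSummable_congr _ ?_).1 ((h.summable hy).neg)
  intro n hn
  simp

/-- the series as a real sum -/
lemma DS_hasSum {f : ℕ → ℝ} {σ s : ℝ} (h : AC f σ) (hs : σ < s) :
    HasSum (fun n : ℕ => if n = 0 then 0 else f n / (n : ℝ) ^ s) (DS f s) := by
  have h1 := Complex.hasSum_re (h.summable hs).hasSum
  have h2 : (fun n : ℕ => if n = 0 then 0 else f n / (n : ℝ) ^ s) =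
      fun n => (LSeries.term (fun n => (f n : ℂ)) (s : ℂ) n).re := by
    funext n
    rw [LSeries.term_def]
    split_ifs with h0
    · rfl
    · rw [← Complex.ofReal_natCast, ← Complex.ofReal_cpow (Nat.cast_nonneg n),
        ← Complex.ofReal_div, Complex.ofReal_re]
  rw [h2]
  exact h1

lemma DS_pos {f : ℕ → ℝ} {σ s : ℝ} (h : AC f σ) (hs : σ < s) (h0 : ∀ n, 1 ≤ n → 0 ≤ f n)
    {p : ℕ} (hp : 1 ≤ p) (hfp : 0 < f p) : 0 < DS f s := by
  have h1 := DS_hasSum h hs
  rw [← h1.tsum_eq]
  refine h1.summable.tsum_pos (fun n => ?_) p ?_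
  · split_ifs with h2
    · exact le_rfl
    · exact div_nonneg (h0 n (by omega)) (by positivity)
  · rw [if_neg (by omega)]
    have : (0 : ℝ) < (p : ℝ) := by exact_mod_cast hp
    positivity

lemma SA.neg {f : ℕ → ℝ} {m : ℕ} (h : SA f m) : SA (fun n => - f n) m := by
  obtain ⟨u, ε, h1, h2, h3, h4⟩ := h
  refine ⟨u, -ε, ?_, h2, h3, fun i hi => ?_⟩
  · rcases h1 with h1 | h1
    · right; rw [h1]
    · left; rw [h1, neg_neg]
  · refine (h4 i hi).trans_le (le_of_eq ?_)
    ring

lemma sa_mono {u : ℕ → ℕ} {R : ℕ} (hu : ∀ i, i < R → u i < u (i + 1)) {i j : ℕ} (hij : i ≤ j)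
    (hj : j ≤ R) : u i ≤ u j := by
  induction j, hij using Nat.le_induction with
  | base => exact le_rfl
  | succ j hij ih => exact (ih (by omega)).trans (hu j (by omega)).le

/-- the multiplication with `log c - log n` -/
lemma step {f : ℕ → ℝ} {p q m : ℕ} (hp : 1 ≤ p) (hpq : p < q) (hfp : 0 < f p)
    (h0 : ∀ n, 1 ≤ n → n < q → 0 ≤ f n) (hq : f q < 0) (hSA : ¬ SA f (m + 2)) :
    ¬ SA (fun n => (Real.log ((q : ℝ) - 1 / 2) - Real.log n) * f n) (m + 1) := by
  have hq2 : (2 : ℝ) ≤ q := by exact_mod_cast (by omega : 2 ≤ q)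
  have hlt : ∀ n : ℕ, 1 ≤ n → n < q → 0 < Real.log ((q : ℝ) - 1 / 2) - Real.log n := by
    intro n h1 h2
    have h3 : (n : ℝ) + 1 ≤ q := by exact_mod_cast h2
    have h4 : (0 : ℝ) < n := by exact_mod_cast h1
    have h5 := Real.log_lt_log h4 (by linarith : (n : ℝ) < (q : ℝ) - 1 / 2)
    linarith
  have hge : ∀ n : ℕ, q ≤ n → Real.log ((q : ℝ) - 1 / 2) - Real.log n < 0 := by
    intro n h1
    have h3 : (q : ℝ) ≤ n := by exact_mod_cast h1
    have h5 := Real.log_lt_log (by linarith : (0 : ℝ) < (q : ℝ) - 1 / 2)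
      (by linarith : (q : ℝ) - 1 / 2 < (n : ℝ))
    linarith
  rintro ⟨u, ε, h1, h2, h3, h4⟩
  apply hSA
  by_cases hu : q ≤ u 0
  · have h5 : ∀ i, i ≤ m + 1 → 0 < -(ε * (-1) ^ i * f (u i)) := by
      intro i hi
      have h6 := h4 i hi
      have h7 := hge (u i) (hu.trans (sa_mono h3 (Nat.zero_le i) hi))
      by_contra hcon
      push Not at hcon
      have h8 : 0 ≤ ε * (-1) ^ i * f (u i) := by linarith
      have h9 : ε * (-1) ^ i * ((Real.log ((q : ℝ) - 1 / 2) - Real.log (u i)) * f (u i)) =
          (Real.log ((q : ℝ) - 1 / 2) - Real.log (u i)) * (ε * (-1) ^ i * f (u i)) := by ring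
      rw [h9] at h6
      exact absurd h6 (not_lt.2 (mul_nonpos_of_nonpos_of_nonneg h7.le h8))
    rcases h1 with h1 | h1
    · refine ⟨fun i => if i = 0 then p else u (i - 1), 1, Or.inl rfl, ?_, fun i hi => ?_,
        fun i hi => ?_⟩
      · simpa using hp
      · rcases Nat.eq_zero_or_pos i with h | h
        · subst h
          simp only [if_true, zero_add, one_ne_zero, if_false, Nat.sub_self]
          omega
        · beta_reduce
          rw [if_neg (by omega), if_neg (by omega)]
          have h6 := h3 (i - 1) (by omega)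
          have h7 : i - 1 + 1 = i + 1 - 1 := by omega
          rwa [h7] at h6
      · rcases Nat.eq_zero_or_pos i with h | h
        · subst h
          simpa using hfp
        · beta_reduce
          rw [if_neg (by omega)]
          obtain ⟨j, rfl⟩ : ∃ j, i = j + 1 := ⟨i - 1, by omega⟩
          have h6 := h5 j (by omega)
          rw [h1] at h6
          rw [Nat.add_sub_cancel, pow_succ]
          refine h6.trans_le (le_of_eq ?_)
          ring
    · have hne : u 0 ≠ q := by
        intro h
        have h6 := h5 0 (Nat.zero_le _)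
        rw [h1, h] at h6
        norm_num at h6
        linarith
      refine ⟨fun i => if i = 0 then q else u (i - 1), -1, Or.inr rfl, ?_, fun i hi => ?_,
        fun i hi => ?_⟩
      · simp only [if_true]
        omega
      · rcases Nat.eq_zero_or_pos i with h | h
        · subst h
          simp only [if_true, zero_add, one_ne_zero, if_false, Nat.sub_self]
          omega
        · beta_reduce
          rw [if_neg (by omega), if_neg (by omega)]
          have h6 := h3 (i - 1) (by omega)
          have h7 : i - 1 + 1 = i + 1 - 1 := by omega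
          rwa [h7] at h6
      · rcases Nat.eq_zero_or_pos i with h | h
        · subst h
          simpa using hq
        · beta_reduce
          rw [if_neg (by omega)]
          obtain ⟨j, rfl⟩ : ∃ j, i = j + 1 := ⟨i - 1, by omega⟩
          have h6 := h5 j (by omega)
          rw [h1] at h6
          rw [Nat.add_sub_cancel, pow_succ]
          refine h6.trans_le (le_of_eq ?_)
          ring
  · push Not at hu
    have h6 := h4 0 (Nat.zero_le _)
    rw [pow_zero, mul_one] at h6
    have hf0 : 0 ≤ f (u 0) := h0 _ h2 hu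
    have hl0 := hlt _ h2 hu
    have hε : ε = 1 := by
      rcases h1 with h1 | h1
      · exact h1
      · exfalso
        rw [h1] at h6
        have := mul_nonneg hl0.le hf0
        linarith
    subst hε
    have hfu0 : 0 < f (u 0) := by
      rw [one_mul] at h6
      exact (pos_iff_pos_of_mul_pos h6).1 hl0
    have h7 := h4 1 (by omega)
    have hu1 : q ≤ u 1 := by
      by_contra hcon
      push Not at hcon
      have h8 : 1 ≤ u 1 := by
        have := h3 0 (by omega)
        simp only [zero_add] at this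
        omega
      have h9 := mul_nonneg (hlt _ h8 hcon).le (h0 _ h8 hcon)
      rw [pow_one] at h7
      linarith
    have h5 : ∀ i, 1 ≤ i → i ≤ m + 1 → 0 < (-1) ^ (i + 1) * f (u i) := by
      intro i hi1 hi
      have h8 := h4 i hi
      have h9 := hge (u i) (hu1.trans (sa_mono h3 hi1 hi))
      rw [one_mul] at h8
      by_contra hcon
      push Not at hcon
      rw [pow_succ] at hcon
      have h10 : 0 ≤ (-1) ^ i * f (u i) := by linarith
      have h11 : (-1) ^ i * ((Real.log ((q : ℝ) - 1 / 2) - Real.log (u i)) * f (u i)) =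
          (Real.log ((q : ℝ) - 1 / 2) - Real.log (u i)) * ((-1) ^ i * f (u i)) := by ring
      rw [h11] at h8
      exact absurd h8 (not_lt.2 (mul_nonpos_of_nonpos_of_nonneg h9.le h10))
    have hne : u 1 ≠ q := by
      intro h
      have h6 := h5 1 le_rfl (by omega)
      rw [h] at h6
      norm_num at h6
      linarith
    refine ⟨fun i => if i = 0 then u 0 else if i = 1 then q else u (i - 1), 1, Or.inl rfl, ?_,
      fun i hi => ?_, fun i hi => ?_⟩
    · simpa using h2
    · rcases Nat.lt_or_ge i 1 with h | h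
      · have : i = 0 := by omega
        subst this
        simpa using hu
      · rcases Nat.lt_or_ge i 2 with h' | h'
        · have : i = 1 := by omega
          subst this
          simp only [one_ne_zero, if_false, if_true, Nat.reduceAdd, OfNat.ofNat_ne_zero,
            OfNat.ofNat_ne_one, Nat.add_one_sub_one]
          omega
        · beta_reduce
          rw [if_neg (by omega), if_neg (by omega), if_neg (by omega), if_neg (by omega)]
          have h6 := h3 (i - 1) (by omega)
          have h7 : i - 1 + 1 = i + 1 - 1 := by omega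
          rwa [h7] at h6
    · rcases Nat.lt_or_ge i 1 with h | h
      · have : i = 0 := by omega
        subst this
        simpa using hfu0
      · rcases Nat.lt_or_ge i 2 with h' | h'
        · have : i = 1 := by omega
          subst this
          simpa using hq
        · beta_reduce
          rw [if_neg (by omega), if_neg (by omega)]
          have h6 := h5 (i - 1) (by omega) (by omega)
          have h7 : i - 1 + 1 = i := by omega
          rw [h7] at h6
          rwa [one_mul]

/-- Rolle -/
lemma rolle {F : ℝ → ℝ} {σ : ℝ} (hF : ∀ x, σ < x → DifferentiableAt ℝ F x) (S : Finset ℝ)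
    (hS : ∀ x ∈ S, σ < x ∧ F x = 0) :
    ∃ S' : Finset ℝ, (∀ x ∈ S', σ < x ∧ deriv F x = 0) ∧ S.card ≤ S'.card + 1 := by
  classical
  rcases Nat.eq_zero_or_pos S.card with h0 | h0
  · exact ⟨∅, by simp, by omega⟩
  obtain ⟨k, hk⟩ : ∃ k, S.card = k + 1 := ⟨S.card - 1, by omega⟩
  set u : Fin (k + 1) ↪o ℝ := S.orderEmbOfFin hk with hu
  have huS : ∀ i, u i ∈ S := fun i => S.orderEmbOfFin_mem hk i
  have h1 : ∀ i : Fin k, ∃ y, u i.castSucc < y ∧ y < u i.succ ∧ deriv F y = 0 := by
    intro i
    have h2 : u i.castSucc < u i.succ := u.strictMono (Fin.castSucc_lt_succ)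
    have hp := (hS _ (huS i.castSucc)).1
    obtain ⟨y, hy, hy'⟩ := exists_deriv_eq_zero (f := F) h2
      (fun x hx => ((hF x (lt_of_lt_of_le hp hx.1)).continuousAt).continuousWithinAt)
      (by rw [(hS _ (huS i.castSucc)).2, (hS _ (huS i.succ)).2])
    exact ⟨y, hy.1, hy.2, hy'⟩
  choose y hy1 hy2 hy3 using h1
  have hmono : StrictMono y := by
    intro i j hij
    have h2 : i.succ ≤ j.castSucc := Fin.succ_le_castSucc_iff.2 hij
    exact (hy2 i).trans_le ((u.monotone h2).trans (hy1 j).le)
  refine ⟨Finset.univ.image y, ?_, ?_⟩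
  · intro x hx
    obtain ⟨i, _, rfl⟩ := Finset.mem_image.1 hx
    exact ⟨(hS _ (huS i.castSucc)).1.trans (hy1 i), hy3 i⟩
  · rw [Finset.card_image_of_injective _ hmono.injective, Finset.card_univ, Fintype.card_fin, hk]

/-- **the rule of signs** -/
theorem signs (σ : ℝ) : ∀ (m : ℕ) (f : ℕ → ℝ), AC f σ → (∃ n, 1 ≤ n ∧ f n ≠ 0) →
    ¬ SA f (m + 1) → ∀ S : Finset ℝ, (∀ s ∈ S, σ < s ∧ DS f s = 0) → S.card ≤ m := by
  classical
  -- it suffices that the first value is positive
  have key : ∀ m : ℕ, (∀ f : ℕ → ℝ, AC f σ → ∀ p, 1 ≤ p → 0 < f p →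
      (∀ n, 1 ≤ n → n < p → f n = 0) → ¬ SA f (m + 1) →
      ∀ S : Finset ℝ, (∀ s ∈ S, σ < s ∧ DS f s = 0) → S.card ≤ m) →
      ∀ f : ℕ → ℝ, AC f σ → (∃ n, 1 ≤ n ∧ f n ≠ 0) →
      ¬ SA f (m + 1) → ∀ S : Finset ℝ, (∀ s ∈ S, σ < s ∧ DS f s = 0) → S.card ≤ m := by
    intro m hm f hf hne hSA S hS
    have h1 := Nat.find_spec hne
    have h2 : ∀ n, 1 ≤ n → n < Nat.find hne → f n = 0 := fun n hn hn' => by
      by_contra hcon
      exact Nat.find_min hne hn' ⟨hn, hcon⟩
    rcases lt_or_gt_of_ne h1.2 with h3 | h3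
    · refine hm (fun n => - f n) hf.neg _ h1.1 (by simpa using h3) (fun n hn hn' => by
        rw [h2 n hn hn', neg_zero]) (fun h => hSA ?_) S (fun s hs => ⟨(hS s hs).1, by
        rw [DS_neg, (hS s hs).2, neg_zero]⟩)
      simpa using h.neg
    · exact hm f hf _ h1.1 h3 h2 hSA S hS
  intro m
  induction m with
  | zero =>
    refine key 0 fun f hf p hp hfp h0 hSA S hS => ?_
    have h1 : ∀ n, 1 ≤ n → 0 ≤ f n := by
      intro n hn
      by_contra hcon
      push Not at hcon
      have hpn : p < n := by
        by_contra h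
        rcases Nat.lt_or_ge n p with h' | h'
        · rw [h0 n hn h'] at hcon
          exact lt_irrefl _ hcon
        · have : n = p := by omega
          subst this
          linarith
      apply hSA
      refine ⟨fun i => if i = 0 then p else n, 1, Or.inl rfl, by simpa using hp, fun i hi => ?_,
        fun i hi => ?_⟩
      · have : i = 0 := by omega
        subst this
        simpa using hpn
      · rcases Nat.eq_zero_or_pos i with h | h
        · subst h
          simpa using hfp
        · have : i = 1 := by omega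
          subst this
          simpa using hcon
    have h2 : S = ∅ := by
      refine Finset.eq_empty_of_forall_notMem fun s hs => ?_
      exact (DS_pos hf (hS s hs).1 h1 hp hfp).ne' (hS s hs).2
    rw [h2, Finset.card_empty]
  | succ m ih =>
    refine key (m + 1) fun f hf p hp hfp h0 hSA S hS => ?_
    by_cases hneg : ∃ n, 1 ≤ n ∧ f n < 0
    · set q := Nat.find hneg with hq
      have hq1 := Nat.find_spec hneg
      have hq2 : ∀ n, 1 ≤ n → n < q → 0 ≤ f n := fun n hn hn' => by
        by_contra hcon
        push Not at hcon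
        exact Nat.find_min hneg hn' ⟨hn, hcon⟩
      have hpq : p < q := by
        by_contra h
        rcases Nat.lt_or_ge q p with h' | h'
        · have h3 := hq1.2
          rw [h0 _ hq1.1 h'] at h3
          exact lt_irrefl _ h3
        · have h3 := hq1.2
          have : q = p := by omega
          rw [← hq, this] at h3
          linarith
      set t := Real.log ((q : ℝ) - 1 / 2) with ht
      have hstep := step hp hpq hfp hq2 hq1.2 hSA
      have hgp : (t - Real.log p) * f p ≠ 0 := by
        refine mul_ne_zero ?_ hfp.ne'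
        have h3 : (p : ℝ) + 1 ≤ q := by exact_mod_cast hpq
        have h4 : (0 : ℝ) < p := by exact_mod_cast hp
        have h5 := Real.log_lt_log h4 (by linarith : (p : ℝ) < (q : ℝ) - 1 / 2)
        exact (sub_pos.2 h5).ne'
      have hder : ∀ x, σ < x → HasDerivAt (fun x => Real.exp (t * x) * DS f x)
          (Real.exp (t * x) * DS (fun n => (t - Real.log n) * f n) x) x := by
        intro x hx
        have h3 := DS_hasDerivAt hf hx
        have h4 : HasDerivAt (fun x : ℝ => Real.exp (t * x)) (Real.exp (t * x) * t) x := by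
          have := ((hasDerivAt_id x).const_mul t).exp
          simpa using this
        have h5 := h4.mul h3
        rw [DS_twist hf hx]
        refine h5.congr_deriv ?_
        ring
      obtain ⟨S', hS', hcard⟩ := rolle (F := fun x => Real.exp (t * x) * DS f x)
        (fun x hx => (hder x hx).differentiableAt) S
        (fun x hx => ⟨(hS x hx).1, by rw [(hS x hx).2, mul_zero]⟩)
      have h6 := ih (fun n => (t - Real.log n) * f n) (hf.twist t) ⟨p, hp, hgp⟩ hstep S'
        (fun x hx => ⟨(hS' x hx).1, by
          have h7 := (hS' x hx).2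
          rw [(hder x (hS' x hx).1).deriv] at h7
          exact (mul_eq_zero.1 h7).resolve_left (Real.exp_pos _).ne'⟩)
      omega
    · push Not at hneg
      have h2 : S = ∅ := by
        refine Finset.eq_empty_of_forall_notMem fun s hs => ?_
        exact (DS_pos hf (hS s hs).1 hneg hp hfp).ne' (hS s hs).2
      rw [h2, Finset.card_empty]
      omega

end Pool.Agent.R404.MZ
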