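import Pool.Agent.R404.MZ.Desc
import Pool.Agent.Y760.ZF.Zk

/-!
# Real linear combinations of multiple zeta functions have few real zeros
-/

set_option autoImplicit false

namespace Pool.Agent.R404.MZ

open Finset Polynomial
open Pool.Agent.Y760.ZF
open Pool.Agent.Y760.ZG (hr hr_nil hr_cons cl hr_cl)

lemma hr_nn (l : List ℕ) : ∀ n, 0 ≤ hr l n := by
  induction l with
  | nil => intro n; rw [hr_nil]; exact zero_le_one
  | cons s l ih =>
    intro n
    rw [hr_cons]
    exact Finset.sum_nonneg fun j _ => div_nonneg (ih j) (by positivity)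

lemma hr_log (l : List ℕ) (hl : ∀ x ∈ l, 1 ≤ x) : ∀ n, 1 ≤ n →
    hr l n ≤ (1 + Real.log n) ^ l.length := by
  induction l with
  | nil => intro n _; rw [hr_nil]; simp
  | cons s l ih =>
    intro n hn
    have ihl := ih fun x hx => hl x (List.mem_cons_of_mem _ hx)
    have hs : 1 ≤ s := hl s List.mem_cons_self
    rw [hr_cons, List.length_cons, pow_succ]
    have hL : ∀ j ∈ Finset.Ico 1 n, hr l j / (j : ℝ) ^ s ≤
        (1 + Real.log n) ^ l.length * (1 / (j : ℝ)) := by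
      intro j hj
      rw [Finset.mem_Ico] at hj
      have hj0 : (1 : ℝ) ≤ j := by exact_mod_cast hj.1
      have h1 := ihl j hj.1
      have h2 : (1 + Real.log j) ^ l.length ≤ (1 + Real.log n) ^ l.length := by
        have h3 := Real.log_nonneg hj0
        have h4 : Real.log j ≤ Real.log n :=
          Real.log_le_log (by linarith) (by exact_mod_cast hj.2.le)
        exact pow_le_pow_left₀ (by linarith) (by linarith) _
      have h5 : (j : ℝ) ≤ (j : ℝ) ^ s := by
        calc (j : ℝ) = (j : ℝ) ^ 1 := (pow_one _).symm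
          _ ≤ (j : ℝ) ^ s := pow_le_pow_right₀ hj0 hs
      rw [div_eq_mul_one_div]
      refine mul_le_mul (h1.trans h2) ?_ (by positivity) ((hr_nn l j).trans (h1.trans h2))
      exact one_div_le_one_div_of_le (by linarith) h5
    refine (Finset.sum_le_sum hL).trans ?_
    rw [← Finset.mul_sum]
    have hn0 : (1 : ℝ) ≤ n := by exact_mod_cast hn
    have hlog := Real.log_nonneg hn0
    refine mul_le_mul_of_nonneg_left ?_ (by positivity)
    have h6 : ∑ j ∈ Finset.Ico 1 n, 1 / (j : ℝ) ≤ (harmonic n : ℝ) := by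
      rw [harmonic_eq_sum_Icc]
      push_cast
      refine (Finset.sum_le_sum_of_subset_of_nonneg (Finset.Ico_subset_Icc_self) fun j _ _ => by
        positivity).trans (le_of_eq ?_)
      exact Finset.sum_congr rfl fun j _ => one_div _
    exact h6.trans (harmonic_le_one_add_log n)

lemma hr_rpow (l : List ℕ) (hl : ∀ x ∈ l, 1 ≤ x) {δ : ℝ} (hδ : 0 < δ) :
    ∃ C : ℝ, 0 < C ∧ ∀ n : ℕ, n ≠ 0 → hr l n ≤ C * (n : ℝ) ^ δ := by
  set η : ℝ := δ / (l.length + 1) with hη
  have hη0 : 0 < η := by positivity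
  refine ⟨(1 + 1 / η) ^ l.length, by positivity, fun n hn => ?_⟩
  have hn1 : (1 : ℝ) ≤ n := by exact_mod_cast Nat.one_le_iff_ne_zero.2 hn
  refine (hr_log l hl n (Nat.one_le_iff_ne_zero.2 hn)).trans ?_
  have h1 : 1 + Real.log n ≤ (1 + 1 / η) * (n : ℝ) ^ η := by
    have h2 := Real.log_le_rpow_div (by linarith : (0 : ℝ) ≤ n) hη0
    have h3 : (1 : ℝ) ≤ (n : ℝ) ^ η := Real.one_le_rpow hn1 hη0.le
    have h4 : (n : ℝ) ^ η / η = 1 / η * (n : ℝ) ^ η := by ring
    rw [h4] at h2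
    nlinarith
  have h5 : 0 ≤ 1 + Real.log n := by
    have := Real.log_nonneg hn1
    linarith
  refine (pow_le_pow_left₀ h5 h1 _).trans ?_
  rw [mul_pow]
  refine mul_le_mul_of_nonneg_left ?_ (by positivity)
  rw [← Real.rpow_natCast, ← Real.rpow_mul (by linarith)]
  refine Real.rpow_le_rpow_of_exponent_le hn1 ?_
  rw [hη, div_mul_eq_mul_div, div_le_iff₀ (by positivity)]
  nlinarith

/-- the multiple zeta value `ζ(s, k_1, ..., k_r)` -/
noncomputable def zt (s : ℝ) (l : List ℕ) : ℝ := ∑' n : ℕ, hr l (n + 1) / ((n + 1 : ℕ) : ℝ) ^ s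

/-- one coefficient sequence -/
noncomputable def co (a : ℤ) (l : List ℕ) (n : ℕ) : ℝ := (n : ℝ) ^ (-a) * hr l n

lemma co_ac (a : ℤ) (l : List ℕ) (hl : ∀ x ∈ l, 1 ≤ x) {σ : ℝ} (hσ : 1 - (a : ℝ) ≤ σ) :
    AC (co a l) σ := by
  unfold AC
  refine LSeries.abscissaOfAbsConv_le_of_forall_lt_LSeriesSummable fun y hy => ?_
  set δ : ℝ := (y - σ) / 2 with hδ
  have hδ0 : 0 < δ := by
    rw [hδ]
    linarith
  obtain ⟨C, hC, hb⟩ := hr_rpow l hl hδ0
  refine LSeriesSummable_of_le_const_mul_rpow (x := 1 - a + δ) ?_ ⟨C, fun n hn => ?_⟩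
  · rw [Complex.ofReal_re, hδ]
    linarith
  · have hn1 : (0 : ℝ) < n := by exact_mod_cast Nat.pos_of_ne_zero hn
    rw [Complex.norm_real, Real.norm_eq_abs]
    unfold co
    rw [abs_mul, abs_of_nonneg (hr_nn l n), abs_of_pos (zpow_pos hn1 _)]
    have h1 : (n : ℝ) ^ (1 - (a : ℝ) + δ - 1) = (n : ℝ) ^ (-a) * (n : ℝ) ^ δ := by
      rw [← Real.rpow_intCast, ← Real.rpow_add hn1]
      congr 1
      push_cast
      ring
    rw [h1]
    calc (n : ℝ) ^ (-a) * hr l n ≤ (n : ℝ) ^ (-a) * (C * (n : ℝ) ^ δ) :=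
          mul_le_mul_of_nonneg_left (hb n hn) (zpow_pos hn1 _).le
      _ = C * ((n : ℝ) ^ (-a) * (n : ℝ) ^ δ) := by ring

lemma co_sum (a : ℤ) (l : List ℕ) (hl : ∀ x ∈ l, 1 ≤ x) {s : ℝ} (hs : 1 - (a : ℝ) < s) :
    HasSum (fun n : ℕ => if n = 0 then 0 else co a l n / (n : ℝ) ^ s) (zt (s + a) l) := by
  have h1 := DS_hasSum (co_ac a l hl le_rfl) hs
  have h2 : zt (s + a) l = DS (co a l) s := by
    have h3 := (hasSum_nat_add_iff' 1).2 h1
    rw [Finset.sum_range_one, if_pos rfl, sub_zero] at h3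
    rw [← h3.tsum_eq]
    unfold zt
    refine tsum_congr fun n => ?_
    rw [if_neg (Nat.succ_ne_zero n)]
    unfold co
    have hn1 : (0 : ℝ) < ((n + 1 : ℕ) : ℝ) := by positivity
    rw [zpow_neg, ← Real.rpow_intCast, Real.rpow_add hn1]
    field_simp
  rw [h2]
  exact h1

/-- a combination -/
noncomputable def cmb {ι : Type} [Fintype ι] (a : ι → ℤ) (k : ι → List ℕ) (c : ι → ℝ) (n : ℕ) : ℝ :=
  ∑ j, c j * co (a j) (k j) n

lemma cmb_ac {ι : Type} [Fintype ι] (a : ι → ℤ) (k : ι → List ℕ) (c : ι → ℝ)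
    (hk : ∀ j, ∀ x ∈ k j, 1 ≤ x) {σ : ℝ} (hσ : ∀ j, 1 - (a j : ℝ) ≤ σ) : AC (cmb a k c) σ := by
  unfold AC
  refine LSeries.abscissaOfAbsConv_le_of_forall_lt_LSeriesSummable fun y hy => ?_
  have h1 : LSeriesSummable (∑ j, (c j : ℂ) • fun n => ((co (a j) (k j) n : ℝ) : ℂ)) (y : ℂ) :=
    LSeriesSummable.sum fun j _ => ((co_ac (a j) (k j) (hk j) (hσ j)).summable hy).smul _
  refine (LSeriesSummable_congr _ ?_).1 h1
  intro n hn
  rw [Finset.sum_apply]
  unfold cmb
  push_cast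
  rfl

lemma cmb_DS {ι : Type} [Fintype ι] (a : ι → ℤ) (k : ι → List ℕ) (c : ι → ℝ)
    (hk : ∀ j, ∀ x ∈ k j, 1 ≤ x) {σ s : ℝ} (hσ : ∀ j, 1 - (a j : ℝ) ≤ σ) (hs : σ < s) :
    DS (cmb a k c) s = ∑ j, c j * zt (s + a j) (k j) := by
  have h1 := DS_hasSum (cmb_ac a k c hk hσ) hs
  have h2 : HasSum (fun n : ℕ => ∑ j, c j * (if n = 0 then 0 else co (a j) (k j) n / (n : ℝ) ^ s))
      (∑ j, c j * zt (s + a j) (k j)) :=
    hasSum_sum fun j _ => (co_sum (a j) (k j) (hk j) (lt_of_le_of_lt (hσ j) hs)).mul_left (c j)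
  refine h1.unique ?_
  have h3 : (fun n : ℕ => if n = 0 then 0 else cmb a k c n / (n : ℝ) ^ s) =
      fun n : ℕ => ∑ j, c j * (if n = 0 then 0 else co (a j) (k j) n / (n : ℝ) ^ s) := by
    funext n
    split_ifs with h
    · simp
    · unfold cmb
      rw [Finset.sum_div]
      exact Finset.sum_congr rfl fun j _ => by ring
  rw [h3]
  exact h2

lemma SA.mono {f : ℕ → ℝ} {R R' : ℕ} (h : SA f R) (hR : R' ≤ R) : SA f R' := by
  obtain ⟨u, ε, h1, h2, h4, h5⟩ := h
  exact ⟨u, ε, h1, h2, fun i hi => h4 i (by omega), fun i hi => h5 i (by omega)⟩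

lemma SA.wa {f : ℕ → ℝ} {R : ℕ} (h : SA f R) : ∃ hi, WA f 1 hi R := by
  obtain ⟨u, ε, h1, h2, h4, h5⟩ := h
  exact ⟨u R, u, ε, h1, h2, le_rfl, h4, fun i hi => (h5 i hi).le⟩

lemma cl_of (l : List ℕ) (hl : ∀ x ∈ l, 1 ≤ x) : cl (l.map Nat.toPNat') = l := by
  induction l with
  | nil => rfl
  | cons s l ih =>
    have h1 := ih fun x hx => hl x (List.mem_cons_of_mem _ hx)
    have h2 : 1 ≤ s := hl s List.mem_cons_self
    rw [List.map_cons]
    show (s.toPNat' : ℕ) :: cl (l.map Nat.toPNat') = _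
    rw [h1, Nat.toPNat'_coe, if_pos (by omega : 0 < s)]

/-- few changes of sign, uniformly -/
theorem few_signs (N r : ℕ) : ∃ R : ℕ, ∀ (ι : Type) [Fintype ι], Fintype.card ι ≤ N →
    ∀ (a : ι → ℤ) (k : ι → List ℕ) (c : ι → ℝ),
    (∀ j, (k j).length ≤ r ∧ ∀ x ∈ k j, 1 ≤ x) →
    Function.Injective (fun j => (a j, k j)) → c ≠ 0 → ∀ hi, ¬ WA (cmb a k c) 1 hi R := by
  classical
  obtain ⟨R, hR⟩ := ze (N * (r + 1)) 1 N
  refine ⟨R, fun ι _ hcard a k c hk hinj hc hi hWA => ?_⟩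
  set kp : ι → List ℕ+ := fun j => (k j).map Nat.toPNat' with hkp
  have hcl : ∀ j, cl (kp j) = k j := fun j => cl_of (k j) (hk j).2
  obtain ⟨S, hS⟩ : ∃ S : ℤ, ∀ j, a j ≤ S := by
    refine ⟨∑ j, |a j|, fun j => (le_abs_self _).trans ?_⟩
    exact Finset.single_le_sum (f := fun j => |a j|) (fun _ _ => abs_nonneg _) (Finset.mem_univ j)
  set Λ0 : Finset (List ℕ+) := Finset.univ.image kp with hΛ0
  have hΛc : Λ0.card ≤ N := by
    refine (Finset.card_image_le).trans ?_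
    rwa [Finset.card_univ]
  set φ : List ℕ+ → ℝ[X] := fun β => ∑ j, if kp j = β then C (c j) * X ^ (S - a j).toNat else 0
    with hφ
  have hsub : Λ0 ⊆ tls Λ0 := fun β hβ => mem_tls.2 ⟨β, hβ, List.suffix_refl _⟩
  have hval : ∀ n : ℕ, 1 ≤ n → (n : ℝ) ^ S * cmb a k c n = Fc (tls Λ0) φ n := by
    intro n hn
    have hn0 : (n : ℝ) ≠ 0 := by exact_mod_cast (by omega : n ≠ 0)
    unfold Fc
    rw [hφ]
    simp only [eval_finsetSum]
    simp only [Finset.sum_mul]
    rw [Finset.sum_comm]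
    unfold cmb
    rw [Finset.mul_sum]
    refine Finset.sum_congr rfl fun j _ => ?_
    rw [Finset.sum_eq_single (kp j)]
    · rw [if_pos rfl, eval_mul, eval_C, eval_pow, eval_X, hcl]
      unfold co
      have h1 : (n : ℝ) ^ (S - a j).toNat = (n : ℝ) ^ S * (n : ℝ) ^ (-(a j)) := by
        rw [← zpow_natCast, Int.toNat_of_nonneg (sub_nonneg.2 (hS j)), ← zpow_add₀ hn0]
        rfl
      rw [h1]
      ring
    · intro β _ hβ
      rw [if_neg (Ne.symm hβ), eval_zero, zero_mul]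
    · intro h
      exact absurd (hsub (Finset.mem_image_of_mem kp (Finset.mem_univ j))) h
  have hWA' : WA (Fc (tls Λ0) φ) 1 hi R :=
    (hWA.pos (g := fun n => (n : ℝ) ^ S) fun n hn _ => by
      have : (0 : ℝ) < n := by exact_mod_cast hn
      exact zpow_pos this _).congr fun n hn _ => hval n hn
  refine hR (tls Λ0) ?_ ?_ φ ?_ ?_ 1 hi le_rfl hWA'
  · refine (tls_card hΛc (ℓ := r) fun β hβ => ?_)
    obtain ⟨j, _, rfl⟩ := Finset.mem_image.1 hβ
    rw [hkp]
    simp only [List.length_map]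
    exact (hk j).1
  · intro t β h
    obtain ⟨γ, hγ, h1⟩ := mem_tls.1 h
    exact mem_tls.2 ⟨γ, hγ, (List.suffix_cons t β).trans h1⟩
  · intro β _
    rw [hφ]
    have h1 := EC.sum (A := 1) (T := 1) (Finset.univ : Finset ι)
      (fun j => if kp j = β then C (c j) * X ^ (S - a j).toNat else 0) (fun j _ => by
        split_ifs
        · exact (EC.X_pow 0 _).smul _
        · exact EC.zero.mono (Nat.zero_le _))
    rw [Finset.card_univ, mul_one] at h1
    exact h1.mono hcard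
  · obtain ⟨j0, hj0⟩ : ∃ j, c j ≠ 0 := by
      by_contra h
      push Not at h
      exact hc (funext h)
    refine ⟨kp j0, hsub (Finset.mem_image_of_mem kp (Finset.mem_univ j0)), fun h0 => hj0 ?_⟩
    have h1 : (φ (kp j0)).coeff (S - a j0).toNat = c j0 := by
      rw [hφ]
      simp only [finsetSum_coeff]
      rw [Finset.sum_eq_single j0]
      · rw [if_pos rfl, coeff_C_mul, coeff_X_pow, if_pos rfl, mul_one]
      · intro j _ hj
        split_ifs with h2
        · rw [coeff_C_mul, coeff_X_pow, if_neg, mul_zero]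
          intro h3
          apply hj
          apply hinj
          have h4 : k j = k j0 := by rw [← hcl j, ← hcl j0, h2]
          have h5 := hS j
          have h6 := hS j0
          have h7 : a j = a j0 := by omega
          simp only [h4, h7]
        · exact coeff_zero _
      · intro h
        exact absurd (Finset.mem_univ j0) h
    rw [← h1, h0, coeff_zero]

/-- the number of zeros is at most the number of changes of sign -/
theorem zeros_of_signs {ι : Type} [Fintype ι] (a : ι → ℤ) (k : ι → List ℕ) (c : ι → ℝ)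
    (hk : ∀ j, ∀ x ∈ k j, 1 ≤ x) (hc : c ≠ 0) {R : ℕ} (hR : ∀ hi, ¬ WA (cmb a k c) 1 hi R)
    (S : Finset ℝ) (hS : ∀ s ∈ S, (∀ j, 1 < s + a j) ∧ ∑ j, c j * zt (s + a j) (k j) = 0) :
    S.card ≤ R - 1 := by
  classical
  have hN : Nonempty ι := by
    by_contra h
    rw [not_nonempty_iff] at h
    exact hc (Subsingleton.elim c 0)
  obtain ⟨j1, hj1⟩ := Finite.exists_min (fun j => (a j : ℝ))
  set σ : ℝ := 1 - (a j1 : ℝ) with hσ
  have hσ' : ∀ j, 1 - (a j : ℝ) ≤ σ := fun j => by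
    rw [hσ]
    linarith [hj1 j]
  have hne : ∃ n, 1 ≤ n ∧ cmb a k c n ≠ 0 := by
    by_contra h
    push Not at h
    refine hR (1 + R) ⟨fun i => 1 + i, 1, Or.inl rfl, le_rfl, le_rfl,
      fun i _ => by show 1 + i < 1 + (i + 1); omega, fun i _ => ?_⟩
    rw [h (1 + i) (by omega), mul_zero]
  have hR0 : 1 ≤ R := by
    by_contra h
    have h1 : R = 0 := by omega
    subst h1
    rcases le_total 0 (cmb a k c 1) with h2 | h2
    · exact hR 1 ⟨fun i => 1 + i, 1, Or.inl rfl, le_rfl, le_rfl, fun i hi => by omega,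
        fun i hi => by
          have : i = 0 := by omega
          subst this
          simpa using h2⟩
    · exact hR 1 ⟨fun i => 1 + i, -1, Or.inr rfl, le_rfl, le_rfl, fun i hi => by omega,
        fun i hi => by
          have : i = 0 := by omega
          subst this
          simpa using h2⟩
  refine signs σ (R - 1) (cmb a k c) (cmb_ac a k c hk hσ') hne (fun h => ?_) S
    (fun s hs => ?_)
  · obtain ⟨hi, h1⟩ := (h.mono (R' := R) (by omega)).wa
    exact hR hi h1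
  · have h1 : σ < s := by
      have := (hS s hs).1 j1
      rw [hσ]
      linarith
    exact ⟨h1, by rw [cmb_DS a k c hk hσ' h1]; exact (hS s hs).2⟩

/-- **few zeros, uniformly** -/
theorem few_zeros (N r : ℕ) : ∃ R : ℕ, ∀ (ι : Type) [Fintype ι], Fintype.card ι ≤ N →
    ∀ (a : ι → ℤ) (k : ι → List ℕ) (c : ι → ℝ),
    (∀ j, (k j).length ≤ r ∧ ∀ x ∈ k j, 1 ≤ x) →
    Function.Injective (fun j => (a j, k j)) → c ≠ 0 → ∀ S : Finset ℝ,
    (∀ s ∈ S, (∀ j, 1 < s + a j) ∧ ∑ j, c j * zt (s + a j) (k j) = 0) → S.card ≤ R := by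
  obtain ⟨R, hR⟩ := few_signs N r
  exact ⟨R - 1, fun ι _ hcard a k c hk hinj hc S hS =>
    zeros_of_signs a k c (fun j => (hk j).2) hc (hR ι hcard a k c hk hinj hc) S hS⟩

end Pool.Agent.R404.MZ
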