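import Pool.Agent.R404.MZ.Asy

/-!
# The theorems for finite sets of indices
-/

set_option autoImplicit false

namespace Pool.Agent.R404.MZ

open Finset
open Pool.Agent.Y760.ZG (hr mz)
open Pool.Agent.Y777.AM (ht)

/-- nonempty indices whose first argument is between `N - J` and `N + J` and whose other arguments,
at most `r`, are positive and of sum at most `J` -/
def Nr (r J N : ℕ) (w : List ℕ) : Prop :=
  ∃ a k, w = a :: k ∧ k.length ≤ r ∧ (∀ x ∈ k, 1 ≤ x) ∧ k.sum ≤ J ∧ N ≤ a + J ∧ a ≤ N + J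

lemma Nr.eq {r J N : ℕ} {w : List ℕ} (h : Nr r J N w) : w = w.headI :: w.tail := by
  obtain ⟨a, k, rfl, _⟩ := h
  rfl

lemma inj_Nr {r J N : ℕ} {T : Finset (List ℕ)} (hT : ∀ w ∈ T, Nr r J N w) :
    Function.Injective fun w : T => ((w : List ℕ).headI, (w : List ℕ).tail) := by
  rintro ⟨w, hw⟩ ⟨w', hw'⟩ h
  simp only [Prod.mk.injEq] at h
  apply Subtype.ext
  show w = w'
  rw [(hT w hw).eq, (hT w' hw').eq, h.1, h.2]

/-- **the main theorem** -/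
theorem asyF (r : ℕ) (κ C δ γ τ ε : ℝ) (hδ : 0 < δ) (hδε : δ < ε) (hγ : γ + δ < 1) (hτ : 0 < τ)
    (hτ1 : τ < 1) :
    ∃ N0 : ℕ, ∀ N : ℕ, N0 ≤ N → ∀ J : ℕ, 2 * ((J + 2 : ℕ) : ℝ) ^ (r + 1) ≤ (N : ℝ) ^ δ →
      ((J + 2 : ℕ) : ℝ) ^ (2 * r + 3) ≤ (N : ℝ) ^ (1 - τ) →
      ∀ T : Finset (List ℕ), (∀ w ∈ T, Nr r J N w) → ∀ (a0 : ℤ) (c : List ℕ → ℤ),
      (a0 ≠ 0 ∨ ∃ w ∈ T, c w ≠ 0) → (∀ w ∈ T, |(c w : ℝ)| ≤ (2 : ℝ) ^ ((N : ℝ) ^ γ)) →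
      ∀ H : Finset (List ℕ), (∀ h ∈ H, (∀ m ∈ h, 1 ≤ m) ∧ (∀ x ∈ h.head?, 2 ≤ x) ∧
        (h.sum : ℝ) ≤ κ * N ∧ ε * N ≤ ht h) → ∀ b : List ℕ → ℝ, (∀ h ∈ H, |b h| ≤ C ^ N) →
      ((N : ℝ) ^ (ε * N))⁻¹ <
        |(a0 : ℝ) + ∑ w ∈ T, (c w : ℝ) * mz w - ∑ h ∈ H, b h * mz h| := by
  obtain ⟨N0, h0⟩ := asy r κ C δ γ τ ε hδ hδε hγ hτ hτ1
  refine ⟨N0, fun N hN J hJ hJ' T hT a0 c hc hcC H hH b hb => ?_⟩
  have h1 := h0 N hN J hJ hJ' T (fun w => (w : List ℕ).headI) (fun w => (w : List ℕ).tail)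
    (fun w => c w) a0 (fun w => by
      obtain ⟨a, k, h1, h2, h3, h4, h5, h6⟩ := hT w w.2
      rw [h1]
      exact ⟨h2, h3, h4⟩) (fun w => by
      obtain ⟨a, k, h1, h2, h3, h4, h5, h6⟩ := hT w w.2
      rw [h1]
      exact ⟨h5, h6⟩) (inj_Nr hT) (by
      rcases hc with hc | ⟨w, hw, hc⟩
      · exact Or.inl hc
      · exact Or.inr fun h => hc (congrFun h ⟨w, hw⟩)) (fun w => hcC w w.2) H hH b hb
  have h2 : ∑ w : T, (c w : ℝ) * mz ((w : List ℕ).headI :: (w : List ℕ).tail) =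
      ∑ w ∈ T, (c w : ℝ) * mz w := by
    rw [← Finset.sum_coe_sort T fun w => (c w : ℝ) * mz w]
    exact Finset.sum_congr rfl fun w _ => by rw [← (hT w w.2).eq]
  rwa [h2] at h1

/-- **many indices of one weight** -/
theorem asyW (κ C η γ ε : ℝ) (hη : 0 < η) (hηε : η < ε) (hη2 : η < 1 / 2) (hγ : γ + η < 1) :
    ∃ r N0 : ℕ, ∀ N : ℕ, N0 ≤ N → ∃ T : Finset (List ℕ), (N : ℝ) ^ η ≤ T.card ∧
      (∀ w ∈ T, w.length ≤ r + 1 ∧ (∀ x ∈ w, 1 ≤ x) ∧ w.sum = N ∧ ∀ a ∈ w.head?, N ≤ 2 * a) ∧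
      ∀ (a0 : ℤ) (c : List ℕ → ℤ),
      (a0 ≠ 0 ∨ ∃ w ∈ T, c w ≠ 0) → (∀ w ∈ T, |(c w : ℝ)| ≤ (2 : ℝ) ^ ((N : ℝ) ^ γ)) →
      ∀ H : Finset (List ℕ), (∀ h ∈ H, (∀ m ∈ h, 1 ≤ m) ∧ (∀ x ∈ h.head?, 2 ≤ x) ∧
        (h.sum : ℝ) ≤ κ * N ∧ ε * N ≤ ht h) → ∀ b : List ℕ → ℝ, (∀ h ∈ H, |b h| ≤ C ^ N) →
      ((N : ℝ) ^ (ε * N))⁻¹ <
        |(a0 : ℝ) + ∑ w ∈ T, (c w : ℝ) * mz w - ∑ h ∈ H, b h * mz h| := by
  classical
  obtain ⟨δ, h1, h2⟩ := exists_between (lt_min (lt_min hηε hη2) (by linarith : η < 1 - γ))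
  rw [lt_min_iff, lt_min_iff] at h2
  obtain ⟨r, N1, h3⟩ := count_large η δ hη h1 (by linarith [h2.1.2])
  obtain ⟨N2, h4⟩ := asyF r κ C δ γ (1 - 2 * δ) ε (hη.trans h1) h2.1.1 (by linarith [h2.2])
    (by linarith [h2.1.2]) (by linarith [hη.trans h1])
  refine ⟨r, max N1 N2, fun N hN => ?_⟩
  obtain ⟨J, h5, h6, h7⟩ := h3 N ((le_max_left _ _).trans hN)
  obtain ⟨L, h8, h9⟩ := count_words r J
  have hsub : ∀ k ∈ L, N - k.sum + k.sum = N ∧ N ≤ 2 * (N - k.sum) ∧ N ≤ N - k.sum + J := by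
    intro k hk
    have := (h9 k hk).2.2
    omega
  set T : Finset (List ℕ) := L.image fun k => (N - k.sum) :: k with hT
  have hcard : T.card = L.card := by
    refine Finset.card_image_of_injective _ fun k k' h => ?_
    simp only [List.cons.injEq] at h
    exact h.2
  refine ⟨T, ?_, fun w hw => ?_, ?_⟩
  · rw [hcard]
    refine h7.trans ?_
    exact_mod_cast h8
  · obtain ⟨k, hk, rfl⟩ := Finset.mem_image.1 hw
    obtain ⟨e1, e2, e3⟩ := h9 k hk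
    obtain ⟨e4, e5, e6⟩ := hsub k hk
    refine ⟨by
      rw [List.length_cons]
      omega, fun x hx => ?_, by rw [List.sum_cons, e4], fun a ha => ?_⟩
    · rcases List.mem_cons.1 hx with rfl | hx
      · by_contra h
        have h10 : N = 0 := by omega
        subst h10
        have hJ0 : J = 0 := by omega
        subst hJ0
        have hr0 : r ≠ 0 ∨ r = 0 := by tauto
        norm_num at h6
        have hδ0 : δ ≠ 0 := by linarith [hη.trans h1]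
        rw [Real.zero_rpow hδ0] at h6
        have : (0 : ℝ) < 2 ^ (r + 2) := by positivity
        linarith
      · exact e2 x hx
    · rw [List.head?_cons, Option.mem_def, Option.some_inj] at ha
      rw [← ha]
      exact e5
  · intro a0 c
    have hJ2 : (2 : ℝ) ≤ ((J + 2 : ℕ) : ℝ) := by
      have : 2 ≤ J + 2 := by omega
      exact_mod_cast this
    have hJ0 : (0 : ℝ) < ((J + 2 : ℕ) : ℝ) ^ (r + 1) := by positivity
    refine h4 N ((le_max_right _ _).trans hN) J (le_trans ?_ h6) ?_ T (fun w hw => ?_) a0 c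
    · rw [pow_succ _ (r + 1), mul_comm]
      exact mul_le_mul_of_nonneg_left hJ2 hJ0.le
    · have h10 : (N : ℝ) ^ (1 - (1 - 2 * δ)) = ((N : ℝ) ^ δ) ^ 2 := by
        rw [← Real.rpow_natCast, ← Real.rpow_mul (Nat.cast_nonneg _)]
        congr 1
        push_cast
        ring
      rw [h10]
      calc ((J + 2 : ℕ) : ℝ) ^ (2 * r + 3) ≤ ((J + 2 : ℕ) : ℝ) ^ ((r + 2) * 2) :=
            pow_le_pow_right₀ (by linarith) (by omega)
        _ = (((J + 2 : ℕ) : ℝ) ^ (r + 2)) ^ 2 := by rw [pow_mul]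
        _ ≤ _ := pow_le_pow_left₀ (by positivity) h6 _
    obtain ⟨k, hk, rfl⟩ := Finset.mem_image.1 hw
    obtain ⟨e1, e2, e3⟩ := h9 k hk
    obtain ⟨e4, e5, e6⟩ := hsub k hk
    exact ⟨N - k.sum, k, rfl, e1, e2, e3, e6, by omega⟩

end Pool.Agent.R404.MZ
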